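import Pool.Agent.H70.QR.Tor

set_option autoImplicit false
set_option linter.unusedSectionVars false

/-!
# The total product over two consecutive classes is trivial
-/

open Polynomial

namespace Pool.QRC

/-- The torus: `z` is a primitive `k`-th root of unity in `K`, `2 k = p + 1`, and `ρ` is
anti-invariant under the involution `x ↦ x ^ p`. -/
structure Tor (p k : ℕ) {K : Type*} [Field K] (ρ z : K) : Prop where
  p8 : p % 8 = 1
  kk : 2 * k = p + 1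
  hz : IsPrimitiveRoot z k
  hρ : ρ ^ p = -ρ
  ρ0 : ρ ≠ 0
  two : (2 : K) ≠ 0
  inv : ∀ x : K, (x ^ p) ^ p = x

/-- The conditions on the classes mod `m`. -/
structure Cnd (p m n : ℕ) {K : Type*} [Field K] (z τ : K) : Prop where
  h1 : ∀ s : ℕ, Lg p ((z ^ n) ^ s + ((z ^ n) ^ s)⁻¹) = 1
  h2 : ∀ s : ℕ, ¬ m ∣ s → Lg p ((z ^ n) ^ s - ((z ^ n) ^ s)⁻¹) = τ
  sq : τ ^ 2 = -1

section

variable {K : Type*} [Field K] {p k m n : ℕ} {ρ z τ : K}

namespace Tor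

lemma zpow_norm (T : Tor p k ρ z) (s : ℕ) : (z ^ s) ^ p * z ^ s = 1 := by
  rw [← pow_succ, ← pow_mul, mul_comm, pow_mul, ← T.kk, mul_comm 2 k, pow_mul, T.hz.pow_eq_one,
    one_pow, one_pow]

lemma z0 (T : Tor p k ρ z) (s : ℕ) : z ^ s ≠ 0 := by
  intro h
  have := T.zpow_norm s
  rw [h, mul_zero] at this
  exact zero_ne_one this

lemma zpow_inv (T : Tor p k ρ z) (s : ℕ) : (z ^ s) ^ p = (z ^ s)⁻¹ :=
  eq_inv_of_mul_eq_one_left (T.zpow_norm s)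

lemma k_odd (T : Tor p k ρ z) : k % 2 = 1 := by
  have h1 := T.p8
  have h2 := T.kk
  omega

lemma n_odd (T : Tor p k ρ z) (hmn : m * n = k) : n % 2 = 1 := by
  have h := T.k_odd
  rw [← hmn, Nat.mul_mod] at h
  rcases Nat.mod_two_eq_zero_or_one n with h1 | h1
  · rw [h1, mul_zero] at h; omega
  · exact h1

lemma m_odd (T : Tor p k ρ z) (hmn : m * n = k) : m % 2 = 1 :=
  T.n_odd (m := n) (by rw [mul_comm]; exact hmn)

lemma k_pos (T : Tor p k ρ z) : 0 < k := by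
  have h1 := T.p8
  have h2 := T.kk
  omega

lemma dvd (T : Tor p k ρ z) (hmn : m * n = k) : n ∣ p + 1 :=
  ⟨2 * m, by rw [← T.kk, ← hmn]; ring⟩

lemma prim (T : Tor p k ρ z) (hmn : m * n = k) : IsPrimitiveRoot (z ^ m) n :=
  T.hz.pow T.k_pos hmn.symm

lemma norm_fix (T : Tor p k ρ z) (y : K) : (y ^ p * y) ^ p = y ^ p * y := by
  rw [mul_pow, T.inv y, mul_comm]

/-- `g ^ 2 ≠ -1` in the torus -/
lemma sq_ne (T : Tor p k ρ z) (s : ℕ) : (z ^ s) ^ 2 ≠ -1 := by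
  intro h
  have h1 : ((z ^ s) ^ 2) ^ k = 1 := by
    rw [← pow_mul, ← pow_mul, show s * (2 * k) = k * (2 * s) by ring, pow_mul, T.hz.pow_eq_one,
      one_pow]
  rw [h] at h1
  have h2 : (-1 : K) ^ k = -1 := Odd.neg_one_pow (Nat.odd_iff.mpr T.k_odd)
  rw [h2] at h1
  apply T.two
  linear_combination -h1

/-- the constant value on one orbit -/
lemma tau_const (T : Tor p k ρ z) (hmn : m * n = k) (C : Cnd p m n z τ) {ε y0 : K}
    (hy0 : y0 ≠ 0) (hcrit : -ε * Lg p (n : K) * Lg p ρ = Lg p (y0 ^ p * y0) * τ) (s : ℕ) :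
    TT p n ρ ε (z ^ s * y0) y0 = (Lg p (y0 ^ p * y0) / Lg p ρ) ^ n * τ := by
  have hn := T.n_odd hmn
  have hn0 : 0 < n := by omega
  have hLρ := Lg_ne (p := p) T.ρ0
  by_cases hs : m ∣ s
  · obtain ⟨t, rfl⟩ := hs
    rw [TT_root hn0 ρ ε y0 y0 (η := z ^ (m * t)), TT_self hn (T.dvd hmn) (T.prim hmn) T.ρ0 ε hy0]
    · obtain ⟨n', rfl⟩ : ∃ n', n = n' + 1 := ⟨n - 1, by omega⟩
      rw [Nat.add_sub_cancel, pow_succ, Lg_div, mul_assoc, div_mul_eq_mul_div, ← hcrit]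
      field_simp
    · rw [← pow_mul, show m * t * n = k * t by rw [← hmn]; ring, pow_mul, T.hz.pow_eq_one,
        one_pow]
  · have e1 : z ^ s * y0 * y0 ^ p = z ^ s * (y0 ^ p * y0) := by ring
    have e2 : (z ^ s * y0) ^ p * y0 = (z ^ s)⁻¹ * (y0 ^ p * y0) := by
      rw [mul_pow, T.zpow_inv s]; ring
    have hN : y0 ^ p * y0 ≠ 0 := mul_ne_zero (pow_ne_zero _ hy0) hy0
    have e3 : (z ^ s) ^ n = (z ^ n) ^ s := by rw [← pow_mul, ← pow_mul, mul_comm]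
    rw [TT_ne hn (T.dvd hmn) (T.prim hmn) T.ρ0, e1, e2, mul_pow (z ^ s) (y0 ^ p * y0) n,
      mul_pow (z ^ s)⁻¹ (y0 ^ p * y0) n, ← sub_mul, inv_pow, e3, Lg_div, Lg_mul, C.h2 s hs, Lg_pow, Lg_pow, div_pow]
    · ring
    · rw [e1, e2, mul_pow (z ^ s) (y0 ^ p * y0) n, mul_pow (z ^ s)⁻¹ (y0 ^ p * y0) n]
      intro h
      have h1 := mul_right_cancel₀ (pow_ne_zero n hN) h
      rw [inv_pow] at h1
      have h2 : (z ^ s) ^ n * (z ^ s) ^ n = 1 := by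
        nth_rewrite 2 [h1]
        exact mul_inv_cancel₀ (pow_ne_zero _ (T.z0 s))
      rw [← pow_mul, ← pow_add] at h2
      have h3 := T.hz.dvd_of_pow_eq_one _ h2
      rw [← hmn, show s * n + s * n = 2 * s * n by ring] at h3
      have h4 : m ∣ 2 * s := Nat.dvd_of_mul_dvd_mul_right hn0 h3
      apply hs
      refine (Nat.Coprime.dvd_of_dvd_mul_left ?_ h4)
      exact Nat.coprime_two_right.mpr (Nat.odd_iff.mpr (T.m_odd hmn))

/-- the constant value between the two orbits -/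
lemma tau_other (T : Tor p k ρ z) (hmn : m * n = k) (C : Cnd p m n z τ) {ε y0 : K}
    (hy0 : y0 ≠ 0) (s : ℕ) :
    TT p n ρ ε (z ^ s * y0) (ρ * y0) = Lg p (y0 ^ p * y0) ^ n := by
  have hn := T.n_odd hmn
  have hn0 : 0 < n := by omega
  have hno : Odd n := Nat.odd_iff.mpr hn
  have e1 : z ^ s * y0 * (ρ * y0) ^ p = -(z ^ s * (y0 ^ p * y0) * ρ) := by
    rw [mul_pow, T.hρ]; ring
  have e2 : (z ^ s * y0) ^ p * (ρ * y0) = (z ^ s)⁻¹ * (y0 ^ p * y0) * ρ := by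
    rw [mul_pow, T.zpow_inv s]; ring
  have hN : y0 ^ p * y0 ≠ 0 := mul_ne_zero (pow_ne_zero _ hy0) hy0
  have e3 : (z ^ s) ^ n = (z ^ n) ^ s := by rw [← pow_mul, ← pow_mul, mul_comm]
  rw [TT_ne hn (T.dvd hmn) (T.prim hmn) T.ρ0, e1, e2]
  · have e4 : ((-(z ^ s * (y0 ^ p * y0) * ρ)) ^ n - ((z ^ s)⁻¹ * (y0 ^ p * y0) * ρ) ^ n) / ρ ^ n =
        -((y0 ^ p * y0) ^ n * ((z ^ n) ^ s + ((z ^ n) ^ s)⁻¹)) := by
      rw [hno.neg_pow, ← e3]
      have := pow_ne_zero n T.ρ0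
      rw [div_eq_iff this]
      simp only [mul_pow, inv_pow]
      ring
    rw [e4, Lg_neg (by have := T.p8; omega), Lg_mul, C.h1 s, mul_one, Lg_pow]
  · rw [e1, e2, hno.neg_pow]
    intro h
    have h1 : -((z ^ s) ^ n) = ((z ^ s)⁻¹) ^ n := by
      refine mul_right_cancel₀ (pow_ne_zero n (mul_ne_zero hN T.ρ0)) ?_
      simp only [mul_pow] at h ⊢
      linear_combination h
    rw [inv_pow] at h1
    have h2 : (z ^ (s * n)) ^ 2 = -1 := by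
      rw [pow_mul, sq]
      have h3 : (z ^ s) ^ n = -((z ^ s) ^ n)⁻¹ := by rw [← h1, neg_neg]
      nth_rewrite 2 [h3]
      rw [mul_neg, mul_inv_cancel₀ (pow_ne_zero _ (T.z0 s))]
    exact T.sq_ne _ h2

/-- shifting the first argument -/
lemma TT_shift (T : Tor p k ρ z) (ε y w : K) (j a : ℕ) :
    TT p n ρ ε (z ^ j * y) (z ^ a * w) = TT p n ρ ε (z ^ (j + (k - 1) * a) * y) w := by
  have hk := T.k_pos
  rw [← TT_norm ρ ε (z ^ j * y) (z ^ a * w) (T.zpow_norm ((k - 1) * a))]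
  have e : z ^ ((k - 1) * a) * (z ^ a * w) = w := by
    rw [← mul_assoc, ← pow_add, show (k - 1) * a + a = k * a by
      obtain ⟨k', rfl⟩ : ∃ k', k = k' + 1 := ⟨k - 1, by omega⟩
      rw [Nat.add_sub_cancel]; ring, pow_mul, T.hz.pow_eq_one, one_pow, one_mul]
  rw [e, pow_add]
  congr 1
  ring

/-- the total product is trivial on the own orbit -/
lemma tot_own (T : Tor p k ρ z) (hmn : m * n = k) (C : Cnd p m n z τ) {ε y0 : K}
    (hy0 : y0 ≠ 0) (hcrit : -ε * Lg p (n : K) * Lg p ρ = Lg p (y0 ^ p * y0) * τ)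
    {c : K} (hc : c ^ p = c) (hc0 : c ≠ 0) (j a : ℕ) :
    TT p n ρ ε (z ^ j * y0) (c * (z ^ a * y0)) * TT p n ρ ε (z ^ (j + 1) * y0) (c * (z ^ a * y0))
      = 1 := by
  have hp2 : p % 2 = 1 := by have := T.p8; omega
  have hN0 : y0 ^ p * y0 ≠ 0 := mul_ne_zero (pow_ne_zero _ hy0) hy0
  rw [TT_smul (T.prim hmn) ρ ε _ _ hc hc0, TT_smul (T.prim hmn) ρ ε _ _ hc hc0,
    T.TT_shift, T.TT_shift, T.tau_const hmn C hy0 hcrit, T.tau_const hmn C hy0 hcrit]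
  have h1 := Lg_sq_fix hp2 hc0 hc
  have h2 := Lg_sq_fix hp2 hN0 (T.norm_fix y0)
  have h3 := Lg_sq_anti hp2 T.ρ0 T.hρ
  have h4 : (Lg p (y0 ^ p * y0) / Lg p ρ) ^ 2 = -1 := by
    rw [div_pow, h2, h3]; norm_num
  have hno : Odd n := Nat.odd_iff.mpr (T.n_odd hmn)
  have e : Lg p c ^ n * ((Lg p (y0 ^ p * y0) / Lg p ρ) ^ n * τ) *
      (Lg p c ^ n * ((Lg p (y0 ^ p * y0) / Lg p ρ) ^ n * τ)) =
      (Lg p c ^ 2) ^ n * ((Lg p (y0 ^ p * y0) / Lg p ρ) ^ 2) ^ n * τ ^ 2 := by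
    ring
  rw [e, h1, h4, C.sq, hno.neg_one_pow]
  ring

/-- the total product is trivial on the other orbit -/
lemma tot_other (T : Tor p k ρ z) (hmn : m * n = k) (C : Cnd p m n z τ) {ε y0 : K}
    (hy0 : y0 ≠ 0) {c : K} (hc : c ^ p = c) (hc0 : c ≠ 0) (j a : ℕ) :
    TT p n ρ ε (z ^ j * y0) (c * (z ^ a * (ρ * y0))) *
      TT p n ρ ε (z ^ (j + 1) * y0) (c * (z ^ a * (ρ * y0))) = 1 := by
  have hp2 : p % 2 = 1 := by have := T.p8; omega
  have hN0 : y0 ^ p * y0 ≠ 0 := mul_ne_zero (pow_ne_zero _ hy0) hy0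
  rw [TT_smul (T.prim hmn) ρ ε _ _ hc hc0, TT_smul (T.prim hmn) ρ ε _ _ hc hc0,
    T.TT_shift, T.TT_shift, T.tau_other hmn C hy0, T.tau_other hmn C hy0]
  have h1 := Lg_sq_fix hp2 hc0 hc
  have h2 := Lg_sq_fix hp2 hN0 (T.norm_fix y0)
  have e : Lg p c ^ n * Lg p (y0 ^ p * y0) ^ n * (Lg p c ^ n * Lg p (y0 ^ p * y0) ^ n) =
      (Lg p c ^ 2) ^ n * (Lg p (y0 ^ p * y0) ^ 2) ^ n := by ring
  rw [e, h1, h2, one_pow, one_mul]

end Tor

end

end Pool.QRC
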