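import Pool.Agent.H70.QR.Defs

set_option autoImplicit false

/-!
# The idempotent of the quadratic residue code and words orthogonal to the extended code
-/

open Polynomial OnePoint

namespace Pool.QRC

set_option linter.unusedSectionVars false

variable {p : ℕ} [Fact p.Prime] {F : Type*} [Field F] [Algebra (ZMod 2) F] {α : F}

lemma two_eq_zero : (2 : F) = 0 := by
  have h : algebraMap (ZMod 2) F 2 = 0 := by
    have : (2 : ZMod 2) = 0 := by decide
    rw [this, map_zero]
  rwa [map_ofNat] at h

lemma add_self_zero (x : F) : x + x = 0 := by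
  rw [← two_mul, two_eq_zero, zero_mul]

lemma cast_odd {n : ℕ} (h : n % 2 = 1) : ((n : ℕ) : F) = 1 := by
  have h1 : n = 2 * (n / 2) + 1 := by omega
  rw [h1]
  push_cast
  rw [two_eq_zero]
  ring

/-- The additive character `i ↦ α^i`. -/
noncomputable def psi (hα : IsPrimitiveRoot α p) : AddChar (ZMod p) F :=
  AddChar.zmodChar p hα.pow_eq_one

lemma psi_prim (hα : IsPrimitiveRoot α p) : (psi hα).IsPrimitive :=
  AddChar.zmodChar_primitive_of_primitive_root p hα

lemma sum_psi (hα : IsPrimitiveRoot α p) (hp : p % 2 = 1) (b : ZMod p) :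
    ∑ x : ZMod p, psi hα (x * b) = if b = 0 then (1 : F) else 0 := by
  have h := AddChar.sum_mulShift (R := ZMod p) (ψ := psi hα) b (psi_prim hα)
  rw [h]
  have : ((Fintype.card (ZMod p) : ℕ) : F) = 1 := by
    rw [ZMod.card]; exact cast_odd hp
  split_ifs <;> simp_all

/-- transform -/
noncomputable def hat (hα : IsPrimitiveRoot α p) (u : ZMod p → F) (j : ZMod p) : F :=
  ∑ i, u i * psi hα (j * i)

/-- Fourier inversion -/
lemma hat_inv (hα : IsPrimitiveRoot α p) (hp : p % 2 = 1) (u : ZMod p → F) (x : ZMod p) :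
    ∑ j, hat hα u j * psi hα (-(j * x)) = u x := by
  have e1 : ∀ j : ZMod p, hat hα u j * psi hα (-(j * x)) =
      ∑ i : ZMod p, u i * psi hα (j * (i - x)) := by
    intro j
    rw [hat, Finset.sum_mul]
    refine Finset.sum_congr rfl fun i _ => ?_
    rw [mul_assoc, ← AddChar.map_add_eq_mul]
    congr 2
    ring
  rw [Finset.sum_congr rfl fun j _ => e1 j, Finset.sum_comm]
  have e2 : ∀ i : ZMod p, ∑ j : ZMod p, u i * psi hα (j * (i - x)) =
      if i = x then u i else 0 := by
    intro i
    rw [← Finset.mul_sum, sum_psi hα hp]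
    by_cases h : i = x
    · simp [h]
    · simp [h, sub_eq_zero]
  rw [Finset.sum_congr rfl fun i _ => e2 i]
  simp

lemma hat_inj (hα : IsPrimitiveRoot α p) (hp : p % 2 = 1) {u v : ZMod p → F}
    (h : ∀ j, hat hα u j = hat hα v j) : u = v := by
  funext x
  rw [← hat_inv hα hp u x, ← hat_inv hα hp v x]
  exact Finset.sum_congr rfl fun j _ => by rw [h]

lemma hat_conv (hα : IsPrimitiveRoot α p) (c g : ZMod p → F) (j : ZMod p) :
    hat hα (fun x => ∑ b, c b * g (x - b)) j = hat hα c j * hat hα g j := by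
  have e1 : hat hα (fun x => ∑ b, c b * g (x - b)) j =
      ∑ b : ZMod p, ∑ x : ZMod p, c b * g (x - b) * psi hα (j * x) := by
    rw [hat, Finset.sum_comm]
    refine Finset.sum_congr rfl fun x _ => ?_
    rw [Finset.sum_mul]
  rw [e1, hat, Finset.sum_mul]
  refine Finset.sum_congr rfl fun b _ => ?_
  rw [hat, Finset.mul_sum]
  refine Fintype.sum_equiv (Equiv.subRight b) _ _ fun x => ?_
  rw [Equiv.subRight_apply]
  have : j * x = j * b + j * (x - b) := by ring
  rw [this, AddChar.map_add_eq_mul]
  ring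

/-- codewords have vanishing transform on `Q` -/
lemma hat_code (hα : IsPrimitiveRoot α p) {c : ZMod p → ZMod 2} (hc : c ∈ QRCode p α)
    (j : ZMod p) (hj : j ≠ 0 ∧ IsSquare j) :
    hat hα (fun i => algebraMap (ZMod 2) F (c i)) j = 0 := by
  have hroot : (genPoly p α).eval (α ^ j.val) = 0 := by
    unfold genPoly
    rw [eval_prod]
    refine Finset.prod_eq_zero (i := j) ?_ ?_
    · simpa using hj
    · simp only [eval_add, eval_X, eval_C]
      exact add_self_zero _
  have h2 : (∑ i : ZMod p, C (algebraMap (ZMod 2) F (c i)) * X ^ i.val : F[X]).eval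
      (α ^ j.val) = 0 := by
    obtain ⟨q, hq⟩ := (hc : genPoly p α ∣ _)
    rw [hq, eval_mul, hroot, zero_mul]
  rw [eval_finsetSum] at h2
  rw [hat, ← h2]
  refine Finset.sum_congr rfl fun i _ => ?_
  simp only [eval_mul, eval_C, eval_pow, eval_X]
  congr 1
  have : j * i = ((j.val * i.val : ℕ) : ZMod p) := by simp
  rw [this, psi, AddChar.zmodChar_apply', pow_mul]

/-- the indicator function of the elements of quadratic character `ε` -/
noncomputable def ind (p : ℕ) [Fact p.Prime] (ε : ℤ) (x : ZMod p) : ZMod 2 :=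
  if quadraticChar (ZMod p) x = ε then 1 else 0

/-- the half Gauss sum -/
noncomputable def tht (hα : IsPrimitiveRoot α p) (ε : ℤ) : F :=
  ∑ x : ZMod p, algebraMap (ZMod 2) F (ind p ε x) * psi hα x

lemma hat_ind (hα : IsPrimitiveRoot α p) (ε : ℤ) (j : ZMod p) (hj : j ≠ 0) :
    hat hα (fun x => algebraMap (ZMod 2) F (ind p ε x)) j =
      tht hα (ε * quadraticChar (ZMod p) j) := by
  rw [hat, tht]
  refine Fintype.sum_equiv (Equiv.mulLeft₀ j hj) _ _ fun x => ?_
  change _ = algebraMap (ZMod 2) F (ind p (ε * quadraticChar (ZMod p) j) (j * x)) * psi hα (j * x)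
  congr 2
  unfold ind
  congr 1
  rw [map_mul]
  have h1 : quadraticChar (ZMod p) j * quadraticChar (ZMod p) j = 1 := by
    rw [← sq]; exact quadraticChar_sq_one hj
  rw [mul_comm ε]
  refine propext ⟨fun h => by rw [h], fun h => ?_⟩
  have h2 := congrArg (fun t => quadraticChar (ZMod p) j * t) h
  simp only [← mul_assoc, h1, one_mul] at h2
  exact h2

lemma tht_add (hα : IsPrimitiveRoot α p) (hp : p % 2 = 1) :
    tht hα 1 + tht hα (-1) = 1 := by
  have h0 : ∑ x : ZMod p, psi hα x = 0 := by
    have := sum_psi hα hp (1 : ZMod p)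
    simpa using this
  have h1 : ∀ x : ZMod p, algebraMap (ZMod 2) F (ind p 1 x) * psi hα x +
      algebraMap (ZMod 2) F (ind p (-1) x) * psi hα x = psi hα x - if x = 0 then 1 else 0 := by
    intro x
    by_cases hx : x = 0
    · subst hx
      simp [ind]
    · unfold ind
      rcases quadraticChar_dichotomy hx with h | h
      · simp [h, hx]
      · simp [h, hx]
  rw [tht, tht, ← Finset.sum_add_distrib, Finset.sum_congr rfl fun x _ => h1 x,
    Finset.sum_sub_distrib, h0]
  simp only [Finset.sum_ite_eq', Finset.mem_univ, if_true]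
  have := add_self_zero (1 : F)
  linear_combination -this

lemma tht_sq (hα : IsPrimitiveRoot α p) (hp : p % 2 = 1) (h2 : IsSquare (2 : ZMod p)) :
    tht hα 1 ^ 2 = tht hα 1 := by
  have : CharP F 2 := by
    have := charP_of_injective_algebraMap (algebraMap (ZMod 2) F).injective 2
    exact this
  have hp2 : (2 : ZMod p) ≠ 0 := by
    intro h
    have : ((2 : ℕ) : ZMod p) = 0 := by exact_mod_cast h
    rw [ZMod.natCast_eq_zero_iff] at this
    have h3 := Nat.le_of_dvd (by norm_num) this
    have h4 := (Fact.out : p.Prime).two_le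
    have : p = 2 := le_antisymm h3 h4
    omega
  have hq : quadraticChar (ZMod p) 2 = 1 := (quadraticChar_one_iff_isSquare hp2).mpr h2
  have e := hat_ind hα 1 2 hp2
  rw [hq, mul_one] at e
  conv_rhs => rw [← e]
  rw [tht, sum_pow_char, hat]
  refine Finset.sum_congr rfl fun x _ => ?_
  rw [mul_pow, ← map_pow]
  congr 1
  · congr 1
    unfold ind
    split_ifs <;> simp
  · rw [sq, ← AddChar.map_add_eq_mul]
    congr 1
    ring

lemma tht_cases (hα : IsPrimitiveRoot α p) (hp : p % 2 = 1) (h2 : IsSquare (2 : ZMod p)) :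
    ∃ ε : ℤ, (ε = 1 ∨ ε = -1) ∧ tht hα ε = 0 ∧ tht hα (-ε) = 1 := by
  have h := tht_sq hα hp h2
  have ha := tht_add hα hp
  have h3 : tht hα 1 * (tht hα 1 - 1) = 0 := by linear_combination h
  rcases mul_eq_zero.mp h3 with h4 | h4
  · refine ⟨1, Or.inl rfl, h4, ?_⟩
    rw [h4, zero_add] at ha
    exact ha
  · refine ⟨-1, Or.inr rfl, ?_, ?_⟩
    · linear_combination ha - h4
    · rw [neg_neg]; linear_combination h4

/-- the number of elements of given character is even for `p ≡ 1 mod 4` -/
lemma sum_ind_zero (hp : p % 4 = 1) (ε : ℤ) (hε : ε = 1 ∨ ε = -1) :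
    ∑ x : ZMod p, ind p ε x = 0 := by
  have hp2 : p ≠ 2 := by rintro rfl; omega
  have hm1 : quadraticChar (ZMod p) (-1) = 1 := by
    rw [quadraticChar_one_iff_isSquare (by simp)]
    exact ZMod.exists_sq_eq_neg_one_iff.mpr (by omega)
  refine Finset.sum_involution (fun x _ => -x) ?_ ?_ ?_ ?_
  · intro x _
    have : ind p ε (-x) = ind p ε x := by
      unfold ind
      rw [← neg_one_mul x, map_mul, hm1, one_mul]
    rw [this]
    exact CharTwo.add_self_eq_zero _
  · intro x _ hx hxx
    have h0 : x = 0 := by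
      have : Fact (2 < p) := ⟨lt_of_le_of_ne (Fact.out : p.Prime).two_le (Ne.symm hp2)⟩
      have : (2 : ZMod p) ≠ 0 := by
        intro h
        have : ((2 : ℕ) : ZMod p) = 0 := by exact_mod_cast h
        rw [ZMod.natCast_eq_zero_iff] at this
        have h3 := Nat.le_of_dvd (by norm_num) this
        exact hp2 (le_antisymm h3 (Fact.out : p.Prime).two_le)
      have h4 : (2 : ZMod p) * x = 0 := by linear_combination -hxx
      exact (mul_eq_zero.mp h4).resolve_left this
    apply hx
    unfold ind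
    rw [h0, MulChar.map_zero, if_neg]
    rcases hε with h | h <;> rw [h] <;> norm_num
  · intro x _; exact Finset.mem_univ _
  · intro x _; exact neg_neg x

/-- the code is generated by the translates of the word `1 + ind` -/
lemma code_eq (hα : IsPrimitiveRoot α p) (hp : p % 8 = 1) :
    ∃ ε : ℤ, (ε = 1 ∨ ε = -1) ∧ ∀ c ∈ QRCode p α, ∀ x : ZMod p,
      c x = ∑ b : ZMod p, c b * (1 + ind p ε (x - b)) := by
  have hp2 : p % 2 = 1 := by omega
  have h2 : IsSquare (2 : ZMod p) := by
    rw [ZMod.exists_sq_eq_two_iff (by rintro rfl; omega)]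
    left; exact hp
  obtain ⟨ε, hε, t0, t1⟩ := tht_cases hα hp2 h2
  refine ⟨ε, hε, fun c hc => ?_⟩
  have key : (fun x => algebraMap (ZMod 2) F (c x)) =
      fun x => ∑ b : ZMod p, algebraMap (ZMod 2) F (c b) *
        (fun y => algebraMap (ZMod 2) F (1 + ind p ε y)) (x - b) := by
    refine hat_inj hα hp2 fun j => ?_
    rw [hat_conv hα (fun b => algebraMap (ZMod 2) F (c b))
      (fun y => algebraMap (ZMod 2) F (1 + ind p ε y)) j]
    have hg : hat hα (fun y => algebraMap (ZMod 2) F (1 + ind p ε y)) j =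
        (if j = 0 then 1 else 0) +
          hat hα (fun y => algebraMap (ZMod 2) F (ind p ε y)) j := by
      rw [hat, hat, ← sum_psi hα hp2 j, ← Finset.sum_add_distrib]
      refine Finset.sum_congr rfl fun x _ => ?_
      rw [map_add, map_one, mul_comm x j]
      ring
    rw [hg]
    by_cases hj : j = 0
    · subst hj
      have : hat hα (fun y => algebraMap (ZMod 2) F (ind p ε y)) 0 = 0 := by
        rw [hat]
        simp only [zero_mul, AddChar.map_zero_eq_one, mul_one]
        rw [← map_sum, sum_ind_zero (by omega) ε hε, map_zero]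
      rw [this]
      simp
    · rw [hat_ind hα ε j hj, if_neg hj, zero_add]
      rcases quadraticChar_dichotomy hj with h | h
      · rw [hat_code hα hc j ⟨hj, (quadraticChar_one_iff_isSquare hj).mp h⟩]
        rw [zero_mul]
      · rw [h, mul_neg_one, t1, mul_one]
  intro x
  have h3 := congrFun key x
  apply (algebraMap (ZMod 2) F).injective
  simp only at h3
  rw [h3, map_sum]
  exact Finset.sum_congr rfl fun b _ => by rw [map_mul]

/-- the local term at a point of the projective line -/
noncomputable def loc (p : ℕ) [Fact p.Prime] (ε : ℤ) (b : ZMod p) (y : P1 p) : ZMod 2 :=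
  Option.elim (y : Option (ZMod p)) 0 (fun x => ind p ε (x - b))

lemma loc_inf (ε : ℤ) (b : ZMod p) : loc p ε b ∞ = 0 := rfl
lemma loc_coe (ε : ℤ) (b x : ZMod p) : loc p ε b (x : P1 p) = ind p ε (x - b) := rfl

lemma ext_eq (hα : IsPrimitiveRoot α p) (hp : p % 8 = 1) :
    ∃ ε : ℤ, (ε = 1 ∨ ε = -1) ∧ ∀ c ∈ ExtQRCode p α, ∀ y : P1 p,
      c y = ∑ b : ZMod p, c (b : P1 p) * (1 + loc p ε b y) := by
  obtain ⟨ε, hε, h⟩ := code_eq hα hp
  refine ⟨ε, hε, fun c hc y => ?_⟩
  induction y using OnePoint.rec with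
  | infty =>
    simp only [loc_inf, add_zero, mul_one]
    have h1 := hc.2
    have h2 := CharTwo.add_self_eq_zero (∑ b : ZMod p, c (b : P1 p))
    linear_combination h1 - h2
  | coe x =>
    simp only [loc_coe]
    exact h _ hc.1 x

/-- A family of points which meets every translate of the character class in an even number of
points (and is of even size) is orthogonal to the extended code. -/
lemma dual_family {ι : Type*} (hα : IsPrimitiveRoot α p) (hp : p % 8 = 1) :
    ∃ ε : ℤ, (ε = 1 ∨ ε = -1) ∧ ∀ (I : Finset ι) (l : ι → P1 p), ((I.card : ℕ) : ZMod 2) = 0 →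
      (∀ b : ZMod p, ∑ i ∈ I, loc p ε b (l i) = 0) →
      ∀ c ∈ ExtQRCode p α, ∑ i ∈ I, c (l i) = 0 := by
  obtain ⟨ε, hε, h⟩ := ext_eq hα hp
  refine ⟨ε, hε, fun I l hI hl c hc => ?_⟩
  rw [Finset.sum_congr rfl fun i _ => h c hc (l i), Finset.sum_comm]
  refine Finset.sum_eq_zero fun b _ => ?_
  rw [← Finset.mul_sum, Finset.sum_add_distrib, hl b]
  simp [hI]

end Pool.QRC
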