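import Pool.Agent.H70.QR.Sing

set_option autoImplicit false
set_option linter.unusedSectionVars false

/-!
# The criterion: both blocks are singular
-/

open Polynomial OnePoint

namespace Pool.QRC

section

variable {p : ℕ} [Fact p.Prime] {K : Type*} [Field K] [Fintype K] [Algebra (ZMod p) K]

/-- exchange of the two cycles -/
lemma Orb.swap {k : ℕ} [NeZero k] {l r : Fin k → P1 p} {β z : K} (O : Orb l r β z) :
    Orb r l β z := by
  refine ⟨O.hβ, O.T, O.hr, O.hl, fun x => (O.cov x).symm, ?_⟩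
  obtain ⟨s, a, hs, hs0, h⟩ := O.oth
  have hb := O.T.ρ0
  have hρ := O.T.hρ
  have hk := O.T.k_pos
  set ρ := β ^ p - β with hρd
  refine ⟨s⁻¹ * (ρ ^ 2)⁻¹, (k - 1) * a, ?_, ?_, ?_⟩
  · have hp2 : p % 2 = 1 := by have := O.T.p8; omega
    have e : (ρ ^ 2) ^ p = ρ ^ 2 := by
      rw [← pow_mul, mul_comm, pow_mul, hρ]; ring
    rw [mul_pow, inv_pow, inv_pow, hs, e]
  · exact mul_ne_zero (inv_ne_zero hs0) (inv_ne_zero (pow_ne_zero _ hb))
  · have hz : z ^ ((k - 1) * a) * z ^ a = 1 := by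
      rw [← pow_add, show (k - 1) * a + a = k * a by
        obtain ⟨k', rfl⟩ : ∃ k', k = k' + 1 := ⟨k - 1, by omega⟩
        rw [Nat.add_sub_cancel]; ring, pow_mul, O.T.hz.pow_eq_one, one_pow]
    rw [h]
    have e2 : s⁻¹ * (ρ ^ 2)⁻¹ * (z ^ ((k - 1) * a) * (ρ * (s * (z ^ a * (ρ * Ph β (l 0)))))) =
        (s⁻¹ * s) * ((ρ ^ 2)⁻¹ * ρ ^ 2) * (z ^ ((k - 1) * a) * z ^ a) * Ph β (l 0) := by ring
    rw [e2, hz, inv_mul_cancel₀ hs0, inv_mul_cancel₀ (pow_ne_zero _ hb)]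
    ring

/-- the norms of the two base points differ by a nonresidue -/
lemma Orb.norm_other {k : ℕ} [NeZero k] {l r : Fin k → P1 p} {β z : K} (O : Orb l r β z) :
    Lg p ((Ph β (r 0)) ^ p * Ph β (r 0)) = -Lg p ((Ph β (l 0)) ^ p * Ph β (l 0)) := by
  obtain ⟨s, a, hs, hs0, h⟩ := O.oth
  have hp2 : p % 2 = 1 := by have := O.T.p8; omega
  have e : (Ph β (r 0)) ^ p * Ph β (r 0) =
      -(s ^ 2 * (β ^ p - β) ^ 2 * ((Ph β (l 0)) ^ p * Ph β (l 0))) := by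
    rw [h]
    simp only [mul_pow]
    rw [hs, O.T.hρ, O.T.zpow_inv a]
    have := O.T.z0 a
    field_simp
  rw [e, Lg_neg (by have := O.T.p8; omega), Lg_mul, Lg_mul, Lg_pow, Lg_pow,
    Lg_sq_fix hp2 hs0 hs, Lg_sq_anti hp2 O.T.ρ0 O.T.hρ]
  ring

/-- a block is singular under the class criterion -/
lemma block_sing (hp : p % 8 = 1) {k m n : ℕ} [NeZero k] {π : Equiv.Perm (P1 p)}
    {l r : Fin k → P1 p} (hcyc : ∀ i, π (l i) = l (i + 1)) {β z τ : K} (O : Orb l r β z)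
    (hmn : m * n = k) (hm : 2 ≤ m) (C : Cnd p m n z τ) {ε : ℤ} (hε : ε = 1 ∨ ε = -1)
    (hcrit : -(ε : K) * Lg p (n : K) * Lg p (β ^ p - β) = Lg p ((Ph β (l 0)) ^ p * Ph β (l 0)) * τ)
    {c : P1 p → ZMod 2}
    (hc : ∀ (I : Finset (Fin k)) (l : Fin k → P1 p), ((I.card : ℕ) : ZMod 2) = 0 →
      (∀ b : ZMod p, ∑ i ∈ I, loc p ε b (l i) = 0) → ∑ i ∈ I, c (l i) = 0) :
    ¬ IsUnit (block π l c) := by
  refine singular (m := m) ⟨n, hmn.symm⟩ hcyc c fun s => ?_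
  obtain ⟨h1, h2⟩ := orth hp O hmn hm C hε hcrit s
  exact hc _ l h1 h2

lemma Lg_two (hp : p % 8 = 1) : Lg p (2 : K) = 1 := by
  have h2 : (2 : ZMod p) ≠ 0 := by
    intro h
    have : ((2 : ℕ) : ZMod p) = 0 := by exact_mod_cast h
    rw [ZMod.natCast_eq_zero_iff] at this
    have h3 := Nat.le_of_dvd (by norm_num) this
    have h4 := (Fact.out : p.Prime).two_le
    omega
  have h := Lg_alg (K := K) (by omega : p % 2 = 1) (2 : ZMod p)
  rw [map_ofNat] at h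
  rw [h, (quadraticChar_one_iff_isSquare h2).mpr]
  · norm_num
  · rw [ZMod.exists_sq_eq_two_iff (by rintro rfl; omega)]
    left; exact hp

lemma root_inv {k : ℕ} {ρ z : K} (T : Tor p k ρ z) (t : ℕ) :
    (z ^ t - (z ^ t)⁻¹) ^ p = -(z ^ t - (z ^ t)⁻¹) := by
  rw [frob_sub, inv_pow, T.zpow_inv, inv_inv]
  ring

/-- the class `m = 3` -/
lemma cnd3 (hp : p % 8 = 1) {k n : ℕ} {ρ z : K} (T : Tor p k ρ z) (hn : 3 * n = k) :
    (z ^ n - (z ^ n)⁻¹) ^ 2 = -3 ∧ Cnd p 3 n z (Lg p (z ^ n - (z ^ n)⁻¹)) := by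
  have hp2 : p % 2 = 1 := by omega
  have hp4 : p % 4 = 1 := by omega
  set w := z ^ n with hw
  have hprim : IsPrimitiveRoot w 3 := T.hz.pow T.k_pos (by rw [← hn]; ring)
  have hw3 : w ^ 3 = 1 := hprim.pow_eq_one
  have hw0 : w ≠ 0 := T.z0 n
  have hw1 : w ≠ 1 := by
    intro h
    have := hprim.ne_one (by norm_num)
    exact this h
  have hs : w ^ 2 + w + 1 = 0 := by
    have : (w - 1) * (w ^ 2 + w + 1) = 0 := by linear_combination hw3
    exact (mul_eq_zero.mp this).resolve_left (sub_ne_zero.mpr hw1)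
  have hinv : w⁻¹ = w ^ 2 := inv_eq_of_mul_eq_one_right (by linear_combination hw3)
  have hsq : (w - w⁻¹) ^ 2 = -3 := by
    rw [hinv]
    linear_combination (w ^ 2 - 3 * w + 3) * hs
  have hne : w - w⁻¹ ≠ 0 := by
    intro h
    rw [h] at hsq
    have h3 : (3 : K) = 0 := by linear_combination hsq
    -- then `w = 1`
    have h4 : (w - 1) ^ 2 = 0 := by linear_combination hs - w * h3
    exact hw1 (sub_eq_zero.mp (pow_eq_zero_iff (two_ne_zero)|>.mp h4))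
  refine ⟨hsq, ⟨?_, ?_, Lg_sq_anti hp2 hne (root_inv T n)⟩⟩
  · intro s
    rw [← inv_pow, hinv]
    have h3 : ∀ s : ℕ, w ^ s = w ^ (s % 3) := by
      intro s
      conv_lhs => rw [← Nat.div_add_mod s 3, pow_add, pow_mul, hw3, one_pow, one_mul]
    have hw6 : (w ^ 2) ^ 3 = 1 := by rw [← pow_mul, mul_comm, pow_mul, hw3, one_pow]
    have h3' : (w ^ 2) ^ s = (w ^ 2) ^ (s % 3) := by
      conv_lhs => rw [← Nat.div_add_mod s 3, pow_add, pow_mul, hw6, one_pow, one_mul]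
    rw [h3 s, h3']
    have h4 : s % 3 = 0 ∨ s % 3 = 1 ∨ s % 3 = 2 := by omega
    rcases h4 with h | h | h
    · rw [h, pow_zero, pow_zero, one_add_one_eq_two]; exact Lg_two hp
    · rw [h, pow_one, pow_one, show w + w ^ 2 = -1 by linear_combination hs, Lg_neg hp4, Lg_one]
    · rw [h, show w ^ 2 + (w ^ 2) ^ 2 = -1 by linear_combination hs + w * hw3,
        Lg_neg hp4, Lg_one]
  · intro s hs3
    rw [← inv_pow, hinv]
    have h3 : ∀ s : ℕ, w ^ s = w ^ (s % 3) := by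
      intro s
      conv_lhs => rw [← Nat.div_add_mod s 3, pow_add, pow_mul, hw3, one_pow, one_mul]
    have hw6 : (w ^ 2) ^ 3 = 1 := by rw [← pow_mul, mul_comm, pow_mul, hw3, one_pow]
    have h3' : (w ^ 2) ^ s = (w ^ 2) ^ (s % 3) := by
      conv_lhs => rw [← Nat.div_add_mod s 3, pow_add, pow_mul, hw6, one_pow, one_mul]
    rw [h3 s, h3']
    have h4 : s % 3 = 1 ∨ s % 3 = 2 := by omega
    rcases h4 with h | h
    · rw [h, pow_one, pow_one]
    · rw [h, show w ^ 2 - (w ^ 2) ^ 2 = -(w - w ^ 2) by linear_combination (-w) * hw3,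
        Lg_neg hp4]

end

end Pool.QRC
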