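import Mathlib

set_option autoImplicit false

/-!
# Extended binary quadratic residue codes: definitions

The definitions are those of the hand-in `QR89` (helper78), for a general prime.
-/

open Polynomial OnePoint

namespace Pool.QRC

/-- Coordinates `0, 1, ..., p-1, ∞` (the projective line over `GF(p)`). -/
abbrev P1 (p : ℕ) : Type := OnePoint (ZMod p)

/-- The generator polynomial `q(x) = ∏_{r ∈ Q} (x + α^r)`, `Q` the nonzero squares mod `p`. -/
noncomputable def genPoly (p : ℕ) [Fact p.Prime] {F : Type*} [Field F] (α : F) : F[X] :=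
  ∏ r : ZMod p with r ≠ 0 ∧ IsSquare r, (X + C (α ^ r.val))

/-- The binary quadratic residue code of length `p`: the words `c` whose polynomial
`∑ c_i x^i` is a multiple of `q(x)`. -/
def QRCode (p : ℕ) [Fact p.Prime] {F : Type*} [Field F] [Algebra (ZMod 2) F] (α : F) :
    Set (ZMod p → ZMod 2) :=
  {c | genPoly p α ∣ ∑ i : ZMod p, C (algebraMap (ZMod 2) F (c i)) * X ^ i.val}

/-- The extended code: an overall parity check is appended in the coordinate `∞`. -/
def ExtQRCode (p : ℕ) [Fact p.Prime] {F : Type*} [Field F] [Algebra (ZMod 2) F] (α : F) :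
    Set (P1 p → ZMod 2) :=
  {c | (fun i : ZMod p => c (i : P1 p)) ∈ QRCode p α ∧ c ∞ + ∑ i : ZMod p, c (i : P1 p) = 0}

/-- Membership in `PSL₂(p)`: `π` is `i ↦ (a i + b) / (c i + d)` with `ad - bc` a nonzero
square. -/
def InPSL (p : ℕ) [Fact p.Prime] (π : Equiv.Perm (P1 p)) : Prop :=
  ∃ a b c d : ZMod p, a * d - b * c ≠ 0 ∧ IsSquare (a * d - b * c) ∧
    π ∞ = (if c = 0 then ∞ else ((a / c : ZMod p) : P1 p)) ∧
    ∀ i : ZMod p, π (i : P1 p) =
      if c * i + d = 0 then ∞ else (((a * i + b) / (c * i + d) : ZMod p) : P1 p)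

/-- `π` is the product of the two disjoint cycles `(l₀ l₁ ...)` and `(r₀ r₁ ...)` of length
`k = (p+1)/2`. -/
structure IsTwoCycles {p k : ℕ} [NeZero k] (π : Equiv.Perm (P1 p)) (l r : Fin k → P1 p) :
    Prop where
  length_eq : 2 * k = p + 1
  inj_l : Function.Injective l
  inj_r : Function.Injective r
  disj : ∀ i j, l i ≠ r j
  cyc_l : ∀ i, π (l i) = l (i + 1)
  cyc_r : ∀ i, π (r i) = r (i + 1)

/-- The action on words: `(π c)_{π i} = c_i`. -/
def act {p : ℕ} (π : Equiv.Perm (P1 p)) (c : P1 p → ZMod 2) : P1 p → ZMod 2 :=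
  fun x => c (π.symm x)

/-- The block of the array with rows `c, πc, ..., π^{k-1}c` in the columns `l₀, ..., l_{k-1}`. -/
def block {p k : ℕ} (π : Equiv.Perm (P1 p)) (l : Fin k → P1 p) (c : P1 p → ZMod 2) :
    Matrix (Fin k) (Fin k) (ZMod 2) :=
  Matrix.of fun j i => ((act π)^[(j : ℕ)] c) (l i)

end Pool.QRC
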