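import Pool.Agent.H70.QR.Orb

set_option autoImplicit false
set_option linter.unusedSectionVars false

/-!
# The torus attached to an element of `PSL₂(p)` with two cycles
-/

open Polynomial OnePoint

namespace Pool.QRC

section

variable {p : ℕ} [Fact p.Prime] {K : Type*} [Field K] [Fintype K] [Algebra (ZMod p) K]

/-- the eigenvector -/
lemma eigen (hK : Fintype.card K = p ^ 2) (hp : p % 2 = 1) {π : Equiv.Perm (P1 p)}
    (hπ : InPSL p π) (hfix : ∀ x, π x ≠ x) :
    ∃ β z : K, β ^ p ≠ β ∧ z ^ p * z = 1 ∧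
      ∀ x : P1 p, ∃ s : K, s ^ p = s ∧ s ≠ 0 ∧ Ph β (π x) = s * (z * Ph β x) := by
  obtain ⟨a, b, c, d, hne, ⟨δ, hδ⟩, hinf, hcoe⟩ := hπ
  have hδ0 : δ ≠ 0 := by
    rintro rfl
    rw [mul_zero] at hδ
    exact hne hδ
  have hc : c ≠ 0 := by
    rintro rfl
    rw [if_pos rfl] at hinf
    exact hfix _ hinf
  rw [if_neg hc] at hinf
  set f := algebraMap (ZMod p) K with hf
  have hinj : Function.Injective f := f.injective
  have h2 : (2 : K) ≠ 0 := two_ne hp
  have hfc : f c ≠ 0 := by rw [Ne, map_eq_zero]; exact hc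
  have hfδ : f δ ≠ 0 := by rw [Ne, map_eq_zero]; exact hδ0
  obtain ⟨y, hy⟩ := sq_root (K := K) hK hp ((a - d) ^ 2 + 4 * b * c)
  have hy' : y * y = (f a - f d) ^ 2 + 4 * f b * f c := by
    rw [hy, ← hf]
    simp only [map_add, map_mul, map_pow, map_sub, map_ofNat]
  set β : K := (-(f a - f d) + y) / (2 * f c) with hβd
  have eqβ : f c * β ^ 2 + (f a - f d) * β - f b = 0 := by
    rw [hβd]
    field_simp
    linear_combination hy'
  clear_value β
  have hdet : f a * f d - f b * f c = f δ * f δ := by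
    rw [← map_mul, ← map_mul, ← map_mul, ← map_sub, hδ]
  -- `β` is not in the prime field
  have hβ : β ^ p ≠ β := by
    intro hfixβ
    obtain ⟨t, ht⟩ := fix_iff hfixβ
    rw [← hf] at ht
    have e1 : c * t ^ 2 + (a - d) * t - b = 0 := by
      apply hinj
      rw [map_zero, ← eqβ, ← ht]
      simp
    have hx := hcoe (-t)
    have hden : c * (-t) + d ≠ 0 := by
      intro h
      have e2 : a * (-t) + b = 0 := by linear_combination (-1 : ZMod p) * e1 - t * h
      apply hne
      linear_combination a * h - c * e2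
    rw [if_neg hden] at hx
    apply hfix _
    · rw [hx]
      congr 1
      rw [div_eq_iff hden]
      linear_combination (-1 : ZMod p) * e1
  have hb : β ^ p - β ≠ 0 := sub_ne_zero.mpr hβ
  -- the conjugate equation
  have eqβ' : f c * (β ^ p) ^ 2 + (f a - f d) * β ^ p - f b = 0 := by
    have h := congrArg (fun t : K => t ^ p) eqβ
    simp only [frob_add, frob_sub, mul_pow, hf, fix_algebraMap] at h
    rw [zero_pow (Fact.out : p.Prime).ne_zero, ← pow_mul, mul_comm 2 p, pow_mul] at h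
    exact h
  have hsum : f c * (β + β ^ p) = f d - f a := by
    have : (β ^ p - β) * (f c * (β + β ^ p) - (f d - f a)) = 0 := by
      linear_combination eqβ' - eqβ
    have := (mul_eq_zero.mp this).resolve_left hb
    linear_combination this
  refine ⟨β, (f a + f c * β) / f δ, hβ, ?_, ?_⟩
  · rw [div_pow, frob_add, mul_pow, hf, fix_algebraMap, fix_algebraMap, fix_algebraMap, ← hf]
    rw [div_mul_div_comm, div_eq_one_iff_eq (mul_ne_zero hfδ hfδ), ← hdet]
    linear_combination (f a + f c * β) * hsum - f c * eqβ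
  · intro x
    induction x using OnePoint.rec with
    | infty =>
      refine ⟨f (δ / c), ?_, ?_, ?_⟩
      · rw [hf, fix_algebraMap]
      · rw [Ne, map_eq_zero]; exact div_ne_zero hδ0 hc
      · rw [hinf, Ph_coe, Ph_inf, ← hf, map_div₀, map_div₀]
        field_simp
    | coe x =>
      by_cases hx : c * x + d = 0
      · have hxb : a * x + b ≠ 0 := by
          intro h
          apply hne
          linear_combination a * hx - c * h
        have hfxb : f a * f x + f b ≠ 0 := by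
          rw [← map_mul, ← map_add, Ne, map_eq_zero]; exact hxb
        have hfx : f c * f x + f d = 0 := by
          rw [← map_mul, ← map_add, hx, map_zero]
        refine ⟨f (δ / (a * x + b)), ?_, ?_, ?_⟩
        · rw [hf, fix_algebraMap]
        · rw [Ne, map_eq_zero]; exact div_ne_zero hδ0 hxb
        · rw [hcoe, if_pos hx, Ph_inf, Ph_coe, ← hf, map_div₀, map_add, map_mul]
          field_simp
          linear_combination (-1 : K) * eqβ - β * hfx
      · have hfx : f c * f x + f d ≠ 0 := by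
          rw [← map_mul, ← map_add, Ne, map_eq_zero]; exact hx
        refine ⟨f (δ / (c * x + d)), ?_, ?_, ?_⟩
        · rw [hf, fix_algebraMap]
        · rw [Ne, map_eq_zero]; exact div_ne_zero hδ0 hx
        · rw [hcoe, if_neg hx, Ph_coe, Ph_coe, ← hf, map_div₀, map_div₀, map_add, map_mul,
            map_add, map_mul]
          generalize hD : f c * f x + f d = D at hfx
          have e : f δ / D * ((f a + f c * β) / f δ * (f x + β)) =
              (f a + f c * β) * (f x + β) / D := by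
            field_simp
          rw [e, div_add' _ _ _ hfx]
          congr 1
          linear_combination (-1 : K) * eqβ - β * hD

lemma iter_eigen {π : Equiv.Perm (P1 p)} {β z : K}
    (h : ∀ x : P1 p, ∃ s : K, s ^ p = s ∧ s ≠ 0 ∧ Ph β (π x) = s * (z * Ph β x)) (t : ℕ)
    (x : P1 p) : ∃ s : K, s ^ p = s ∧ s ≠ 0 ∧
      Ph β ((π : P1 p → P1 p)^[t] x) = s * (z ^ t * Ph β x) := by
  induction t with
  | zero => exact ⟨1, one_pow _, one_ne_zero, by simp⟩
  | succ t ih =>
    obtain ⟨s, hs, hs0, hs1⟩ := ih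
    rw [Function.iterate_succ_apply']
    obtain ⟨s', hs', hs0', hs1'⟩ := h ((π : P1 p → P1 p)^[t] x)
    refine ⟨s' * s, by rw [mul_pow, hs, hs'], mul_ne_zero hs0' hs0, ?_⟩
    rw [hs1', hs1, pow_succ]
    ring

/-- the data of the two cycles -/
lemma orb_exists (hK : Fintype.card K = p ^ 2) (hp : p % 8 = 1) {k : ℕ} [NeZero k]
    {π : Equiv.Perm (P1 p)} {l r : Fin k → P1 p} (hπ : InPSL p π) (h : IsTwoCycles π l r) :
    ∃ β z : K, Orb l r β z := by
  have hk := h.length_eq
  have hpp := (Fact.out : p.Prime).two_le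
  have hk2 : 2 ≤ k := by omega
  have hp2 : p % 2 = 1 := by omega
  have hone : ∀ i : Fin k, i + 1 ≠ i := by
    intro i hi
    have h1 : ((1 : Fin k) : ℕ) = 0 := by
      have : (1 : Fin k) = 0 := by simpa using hi
      rw [this]; rfl
    have h2 : ((1 : Fin k) : ℕ) = 1 := by
      rw [Fin.val_one', Nat.mod_eq_of_lt (by omega)]
    omega
  have hfix : ∀ x, π x ≠ x := by
    intro x hx
    rcases cover h x with ⟨i, rfl⟩ | ⟨i, rfl⟩
    · rw [h.cyc_l] at hx
      exact hone i (h.inj_l hx)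
    · rw [h.cyc_r] at hx
      exact hone i (h.inj_r hx)
  obtain ⟨β, z0, hβ, hz0, heig⟩ := eigen hK hp2 hπ hfix
  have hinv : ∀ x : K, (x ^ p) ^ p = x := invol hK
  have hb : β ^ p - β ≠ 0 := sub_ne_zero.mpr hβ
  -- the sign
  obtain ⟨z, hz1, hzk, heig⟩ : ∃ z : K, z ^ p * z = 1 ∧ z ^ k = 1 ∧
      ∀ x : P1 p, ∃ s : K, s ^ p = s ∧ s ≠ 0 ∧ Ph β (π x) = s * (z * Ph β x) := by
    obtain ⟨s, hs, hs0, hs1⟩ := iter_eigen heig k (l 0)
    rw [iter_k h.cyc_l] at hs1
    have hP := Ph_ne hβ (l 0)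
    have h1 : s * z0 ^ k = 1 := by
      refine mul_right_cancel₀ hP ?_
      rw [one_mul, mul_assoc, ← hs1]
    have h2 : (z0 ^ k) ^ p = z0 ^ k := by
      have h3 : (s * z0 ^ k) ^ p = 1 := by rw [h1, one_pow]
      rw [mul_pow, hs] at h3
      refine mul_left_cancel₀ hs0 ?_
      rw [h3, h1]
    have h3 : (z0 ^ k) ^ p * z0 ^ k = 1 := by
      rw [← pow_mul, mul_comm k p, pow_mul, ← mul_pow, hz0, one_pow]
    rw [h2] at h3
    rcases mul_self_eq_one_iff.mp h3 with h4 | h4
    · exact ⟨z0, hz0, h4, heig⟩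
    · refine ⟨-z0, ?_, ?_, ?_⟩
      · rw [Odd.neg_pow (Nat.odd_iff.mpr hp2), neg_mul_neg, hz0]
      · rw [Odd.neg_pow (Nat.odd_iff.mpr (by omega : k % 2 = 1)), h4, neg_neg]
      · intro x
        obtain ⟨s, hs, hs0, hs1⟩ := heig x
        refine ⟨-s, ?_, neg_ne_zero.mpr hs0, ?_⟩
        · rw [Odd.neg_pow (Nat.odd_iff.mpr hp2), hs]
        · rw [hs1]; ring
  have hprim : IsPrimitiveRoot z k := by
    refine IsPrimitiveRoot.mk_of_lt z (by omega) hzk ?_
    intro t ht0 htk h1
    obtain ⟨s, hs, hs0, hs1⟩ := iter_eigen heig t (l 0)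
    rw [h1, one_mul] at hs1
    have h2 := Ph_inj hβ hs hs1
    have h3 := iter_l h.cyc_l (⟨t, htk⟩ : Fin k)
    rw [h2] at h3
    have h4 := h.inj_l h3
    have h5 := congrArg Fin.val h4
    simp at h5
    omega
  have hρ : (β ^ p - β) ^ p = -(β ^ p - β) := by
    rw [frob_sub, hinv]; ring
  have T : Tor p k (β ^ p - β) z :=
    { p8 := hp, kk := hk, hz := hprim, hρ := hρ, ρ0 := hb, two := two_ne hp2, inv := hinv }
  have hl : ∀ i : Fin k, ∃ s : K, s ^ p = s ∧ s ≠ 0 ∧
      Ph β (l i) = s * (z ^ i.val * Ph β (l 0)) := by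
    intro i
    have := iter_eigen heig i.val (l 0)
    rwa [iter_l h.cyc_l i] at this
  have hr : ∀ i : Fin k, ∃ s : K, s ^ p = s ∧ s ≠ 0 ∧
      Ph β (r i) = s * (z ^ i.val * Ph β (r 0)) := by
    intro i
    have := iter_eigen heig i.val (r 0)
    rwa [iter_l h.cyc_r i] at this
  refine ⟨β, z, ⟨hβ, T, hl, hr, cover h, ?_⟩⟩
  -- the other orbit
  have hPl := Ph_ne hβ (l 0)
  have hPr := Ph_ne hβ (r 0)
  set q : K := Ph β (r 0) / Ph β (l 0) with hq
  have hq0 : q ≠ 0 := div_ne_zero hPr hPl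
  have hqr : Ph β (r 0) = q * Ph β (l 0) := by rw [hq, div_mul_cancel₀ _ hPl]
  set v : K := q / q ^ p with hv
  have hqp0 : q ^ p ≠ 0 := pow_ne_zero _ hq0
  have hvn : v ^ p * v = 1 := by
    rw [hv, div_pow, hinv]
    field_simp
  have hv2 : v ^ k * v ^ k = 1 := by
    rw [← pow_add, show k + k = p + 1 by omega, pow_succ, hvn]
  have hko : Odd k := Nat.odd_iff.mpr (by omega)
  -- square roots in the torus
  have hroot : ∀ u : K, u ^ k = 1 → ∃ a : ℕ, u = z ^ a * z ^ a := by
    intro u hu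
    obtain ⟨i, hi, hi2⟩ := hprim.eq_pow_of_pow_eq_one hu
    refine ⟨i * ((k + 1) / 2), ?_⟩
    rw [← pow_add, ← hi2, show i * ((k + 1) / 2) + i * ((k + 1) / 2) = i * (2 * ((k + 1) / 2)) by
      ring, show 2 * ((k + 1) / 2) = k + 1 by omega, mul_add, mul_one, pow_add, mul_comm i k,
      pow_mul, hzk, one_pow, one_mul]
  rcases mul_self_eq_one_iff.mp hv2 with h4 | h4
  · exfalso
    obtain ⟨a, ha⟩ := hroot v h4
    have h5 : (q / z ^ a) ^ p = q / z ^ a := by
      rw [div_pow, T.zpow_inv, div_inv_eq_mul, eq_div_iff (T.z0 a), mul_assoc, ← ha, hv]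
      field_simp
    have hz0' := T.z0 (a % k)
    have hza : z ^ a = z ^ (a % k) := by
      conv_lhs => rw [← Nat.div_add_mod a k, pow_add, pow_mul, hzk, one_pow, one_mul]
    rw [hza] at h5
    obtain ⟨s, hs, hs0, hs1⟩ := hl ⟨a % k, Nat.mod_lt _ (by omega)⟩
    have h6 : Ph β (r 0) = (q / z ^ (a % k)) / s * Ph β (l ⟨a % k, Nat.mod_lt _ (by omega)⟩) := by
      rw [hs1, hqr]
      simp only
      field_simp
    have h7 := Ph_inj hβ (c := (q / z ^ (a % k)) / s) (by rw [div_pow, h5, hs]) h6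
    exact h.disj _ _ h7.symm
  · have h5 : (-v) ^ k = 1 := by rw [hko.neg_pow, h4, neg_neg]
    obtain ⟨a, ha⟩ := hroot (-v) h5
    have hz0' := T.z0 a
    refine ⟨q / (z ^ a * (β ^ p - β)), a, ?_, ?_, ?_⟩
    · rw [div_pow, mul_pow, T.zpow_inv, hρ, div_eq_div_iff
        (mul_ne_zero (inv_ne_zero hz0') (neg_ne_zero.mpr hb)) (mul_ne_zero hz0' hb)]
      have h6 : q = -(z ^ a * z ^ a) * q ^ p := by
        rw [← ha, neg_neg, hv]
        field_simp
      have h7 : q * ((z ^ a)⁻¹ * -(β ^ p - β)) = q ^ p * (z ^ a * (β ^ p - β)) := by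
        nth_rewrite 1 [h6]
        field_simp
      exact h7.symm
    · exact div_ne_zero hq0 (mul_ne_zero hz0' hb)
    · rw [hqr]
      field_simp

end

end Pool.QRC
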