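import Pool.Agent.H70.QR.Crit

set_option autoImplicit false
set_option linter.unusedSectionVars false

/-!
# The class `m = 5` and the failure theorem
-/

open Polynomial OnePoint

namespace Pool.QRC

section

variable {p : ℕ} [Fact p.Prime] {K : Type*} [Field K] [Fintype K] [Algebra (ZMod p) K]

/-- the class `m = 5` -/
lemma cnd5 (hp : p % 8 = 1) {k n : ℕ} {ρ z : K} (T : Tor p k ρ z) (hn : 5 * n = k) {e : K}
    (hfix : e ^ p = e) (he : e ^ 4 = e ^ 2 + 1) :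
    ∃ θ τ : K, θ ^ 2 = -(e ^ 2 + 2) ∧ Lg p θ = τ ∧ Cnd p 5 n z τ := by
  have hp2 : p % 2 = 1 := by omega
  have hp4 : p % 4 = 1 := by omega
  set w := z ^ n with hw
  have hprim : IsPrimitiveRoot w 5 := T.hz.pow T.k_pos (by rw [← hn]; ring)
  have hw5 : w ^ 5 = 1 := hprim.pow_eq_one
  have hw0 : w ≠ 0 := T.z0 n
  have hw1 : w ≠ 1 := hprim.ne_one (by norm_num)
  have hs : w ^ 4 + w ^ 3 + w ^ 2 + w + 1 = 0 := by
    have : (w - 1) * (w ^ 4 + w ^ 3 + w ^ 2 + w + 1) = 0 := by linear_combination hw5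
    exact (mul_eq_zero.mp this).resolve_left (sub_ne_zero.mpr hw1)
  have hinv : w⁻¹ = w ^ 4 := inv_eq_of_mul_eq_one_right (by linear_combination hw5)
  have he0 : e ≠ 0 := by
    rintro rfl
    norm_num at he
  have hLe : Lg p (e ^ 2) = 1 := by rw [Lg_pow, Lg_sq_fix hp2 he0 hfix]
  have hLe1 : Lg p (e ^ 2 - 1) = 1 := by
    have h : Lg p ((e ^ 2 - 1) * e ^ 2) = 1 := by
      rw [show (e ^ 2 - 1) * e ^ 2 = 1 by linear_combination he, Lg_one]
    rw [Lg_mul, hLe, mul_one] at h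
    exact h
  have hLe2 : Lg p (-e ^ 2) = 1 := by rw [Lg_neg hp4, hLe]
  set g := w + w ^ 4 with hg
  have hgg : (g - (e ^ 2 - 1)) * (g + e ^ 2) = 0 := by
    rw [hg]
    linear_combination hs + (2 + w ^ 3) * hw5 - he
  have hLg : Lg p g = 1 ∧ Lg p (w ^ 2 + w ^ 3) = 1 ∧
      ((w - w ^ 4) ^ 2 = -(e ^ 2 + 2) ∨ (w ^ 2 - w ^ 3) ^ 2 = -(e ^ 2 + 2)) := by
    rcases mul_eq_zero.mp hgg with h | h
    · have h1 : g = e ^ 2 - 1 := by linear_combination h
      have h2 : w ^ 2 + w ^ 3 = -e ^ 2 := by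
        rw [hg] at h
        linear_combination hs - h
      refine ⟨by rw [h1, hLe1], by rw [h2, hLe2], Or.inl ?_⟩
      linear_combination (-2 + w ^ 3) * hw5 + h2
    · have h1 : g = -e ^ 2 := by linear_combination h
      have h2 : w ^ 2 + w ^ 3 = e ^ 2 - 1 := by
        rw [hg] at h
        linear_combination hs - h
      refine ⟨by rw [h1, hLe2], by rw [h2, hLe1], Or.inr ?_⟩
      rw [hg] at h1
      linear_combination (-2 + w) * hw5 + h1
  obtain ⟨hL1, hL2, hsq⟩ := hLg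
  have hθ2 : w ^ 2 - w ^ 3 = (w - w ^ 4) * g := by
    rw [hg]
    linear_combination (w ^ 3) * hw5
  have hLθ : Lg p (w ^ 2 - w ^ 3) = Lg p (w - w ^ 4) := by rw [hθ2, Lg_mul, hL1, mul_one]
  have hne : w - w ^ 4 ≠ 0 := by
    intro h
    have h3 : w ^ 3 = 1 := by
      have : w * (w ^ 3 - 1) = 0 := by linear_combination -h
      have := (mul_eq_zero.mp this).resolve_left hw0
      linear_combination this
    have h4 := hprim.dvd_of_pow_eq_one 3 h3
    norm_num at h4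
  have hτ : Lg p (w - w ^ 4) ^ 2 = -1 := by
    have h := root_inv T n
    rw [← hw, hinv] at h
    exact Lg_sq_anti hp2 hne h
  have h5 : ∀ s : ℕ, w ^ s = w ^ (s % 5) := by
    intro s
    conv_lhs => rw [← Nat.div_add_mod s 5, pow_add, pow_mul, hw5, one_pow, one_mul]
  have hC : Cnd p 5 n z (Lg p (w - w ^ 4)) := by
    refine ⟨?_, ?_, hτ⟩
    · intro s
      rw [← hw, ← inv_pow, hinv, ← pow_mul w 4 s, h5 s, h5 (4 * s)]
      have h4 : s % 5 = 0 ∨ s % 5 = 1 ∨ s % 5 = 2 ∨ s % 5 = 3 ∨ s % 5 = 4 := by omega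
      rcases h4 with h | h | h | h | h
      · rw [show 4 * s % 5 = 0 by omega, h, pow_zero, one_add_one_eq_two]; exact Lg_two hp
      · rw [show 4 * s % 5 = 4 by omega, h, pow_one]; exact hL1
      · rw [show 4 * s % 5 = 3 by omega, h]; exact hL2
      · rw [show 4 * s % 5 = 2 by omega, h, add_comm]; exact hL2
      · rw [show 4 * s % 5 = 1 by omega, h, pow_one, add_comm]; exact hL1
    · intro s hs5
      rw [← hw, ← inv_pow, hinv, ← pow_mul w 4 s, h5 s, h5 (4 * s)]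
      have h4 : s % 5 = 1 ∨ s % 5 = 2 ∨ s % 5 = 3 ∨ s % 5 = 4 := by omega
      rcases h4 with h | h | h | h
      · rw [show 4 * s % 5 = 4 by omega, h, pow_one]
      · rw [show 4 * s % 5 = 3 by omega, h]; exact hLθ
      · rw [show 4 * s % 5 = 2 by omega, h, ← Lg_neg hp4, neg_sub]; exact hLθ
      · rw [show 4 * s % 5 = 1 by omega, h, pow_one, ← Lg_neg hp4, neg_sub]
  rcases hsq with h | h
  · exact ⟨w - w ^ 4, _, h, rfl, hC⟩
  · exact ⟨w ^ 2 - w ^ 3, _, h, hLθ, hC⟩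

lemma cast_ne (m : ℕ) (hm0 : 0 < m) (hm : m < p) : ((m : ℕ) : K) ≠ 0 := by
  have := charK (p := p) (K := K)
  intro h
  rw [CharP.cast_eq_zero_iff K p] at h
  have := Nat.le_of_dvd hm0 h
  omega

lemma cast_fix (m : ℕ) : ((m : ℕ) : K) ^ p = (m : K) := by
  rw [← map_natCast (algebraMap (ZMod p) K) m, fix_algebraMap]

/-- `5` divides `k` -/
lemma five_dvd (hp : p % 24 = 17) {k n : ℕ} {ρ z : K} (T : Tor p k ρ z) (hn : 3 * n = k) {e Z : K}
    (hfe : e ^ p = e) (hfZ : Z ^ p = Z) (he : e ^ 4 = e ^ 2 + 1)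
    (hZ : Z ^ 4 = 27 * (e ^ 2 + 2)) : 5 ∣ k := by
  have h2 : (2 : K) ≠ 0 := T.two
  have h3 : (3 : K) ≠ 0 := by exact_mod_cast cast_ne (p := p) (K := K) 3 (by norm_num) (by omega)
  have h5 : (5 : K) ≠ 0 := by exact_mod_cast cast_ne (p := p) (K := K) 5 (by norm_num) (by omega)
  have hf2 : (2 : K) ^ p = 2 := by exact_mod_cast cast_fix (p := p) (K := K) 2
  have hf9 : (9 : K) ^ p = 9 := by exact_mod_cast cast_fix (p := p) (K := K) 9
  have h9 : (9 : K) ≠ 0 := by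
    rw [show (9 : K) = 3 * 3 by norm_num]; exact mul_ne_zero h3 h3
  obtain ⟨hy, -⟩ := cnd3 (by omega : p % 8 = 1) T hn
  have hyp := root_inv T n
  set y := z ^ n - (z ^ n)⁻¹ with hyd
  set g : K := e ^ 2 - 1 with hg
  have hgg : g ^ 2 + g = 1 := by rw [hg]; linear_combination he
  obtain ⟨W, hW⟩ : ∃ W : K, 9 * W = Z ^ 2 := ⟨Z ^ 2 / 9, by field_simp⟩
  have hWp : W ^ p = W := by
    have h : (9 * W) ^ p = 9 * W := by rw [hW, ← pow_mul, mul_comm 2 p, pow_mul, hfZ]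
    rw [mul_pow, hf9] at h
    exact mul_left_cancel₀ h9 h
  have hW2 : 3 * W ^ 2 = e ^ 2 + 2 := by
    have h27 : (27 : K) ≠ 0 := by
      rw [show (27 : K) = 3 * 9 by norm_num]; exact mul_ne_zero h3 h9
    refine mul_left_cancel₀ h27 ?_
    linear_combination (9 * W + Z ^ 2) * hW + hZ
  have hgp : g ^ p = g := by
    rw [hg, frob_sub, ← pow_mul, mul_comm 2 p, pow_mul, hfe, one_pow]
  clear_value g
  obtain ⟨x, hx⟩ : ∃ x : K, 2 * x = g + y * W := ⟨(g + y * W) / 2, by field_simp⟩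
  obtain ⟨x', hx'⟩ : ∃ x : K, 2 * x = g - y * W := ⟨(g - y * W) / 2, by field_simp⟩
  have h4 : (4 : K) ≠ 0 := by
    rw [show (4 : K) = 2 * 2 by norm_num]; exact mul_ne_zero h2 h2
  have hxx : x' * x = 1 := by
    refine mul_left_cancel₀ h4 ?_
    have e1 : 4 * (x' * x) = (g - y * W) * (g + y * W) := by rw [← hx, ← hx']; ring
    rw [e1]
    rw [hg] at *
    linear_combination (-W ^ 2) * hy + hW2 + he
  have hsum : x + x' = g := by
    refine mul_left_cancel₀ h2 ?_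
    linear_combination hx + hx'
  have hxp : x ^ p = x' := by
    refine mul_left_cancel₀ h2 ?_
    have e1 : (2 * x) ^ p = g - y * W := by
      rw [hx, frob_add, mul_pow, hgp, hyp, hWp]; ring
    rw [mul_pow, hf2] at e1
    rw [e1, hx']
  have hx5 : x ^ 5 = 1 := by
    have hq : x ^ 2 - g * x + 1 = 0 := by
      linear_combination x * hsum - hxx
    linear_combination (x - 1) * ((x ^ 2 + (1 + g) * x + 1) * hq + x ^ 2 * hgg)
  have hx1 : x ≠ 1 := by
    intro h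
    rw [h, mul_one] at hxx
    rw [h, hxx] at hsum
    apply h5
    linear_combination hgg + (g + 3) * hsum
  have hord : orderOf x = 5 := by
    have : Fact (Nat.Prime 5) := ⟨by norm_num⟩
    exact orderOf_eq_prime hx5 hx1
  have hd : 5 ∣ p + 1 := by
    rw [← hord]
    refine orderOf_dvd_of_pow_eq_one ?_
    rw [pow_succ, hxp, hxx]
  have hkk := T.kk
  rw [← hkk] at hd
  exact Nat.Coprime.dvd_of_dvd_mul_left (by norm_num) hd

/-- Q1 fails for every prime of the explicit family. -/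
theorem fail_K (hK : Fintype.card K = p ^ 2) (hp : p % 24 = 17) {e Z : ZMod p} (he : e ^ 4 = e ^ 2 + 1)
    (hZ : Z ^ 4 = 27 * (e ^ 2 + 2)) {F : Type*} [Field F] [Algebra (ZMod 2) F] {α : F}
    (hα : IsPrimitiveRoot α p) {k : ℕ} [NeZero k] {π : Equiv.Perm (P1 p)} {l r : Fin k → P1 p}
    (hπ : InPSL p π) (h : IsTwoCycles π l r) {c : P1 p → ZMod 2} (hc : c ∈ ExtQRCode p α) :
    ¬ IsUnit (block π l c) ∧ ¬ IsUnit (block π r c) := by
  classical
  have hp8 : p % 8 = 1 := by omega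
  have hp2 : p % 2 = 1 := by omega
  have hp4 : p % 4 = 1 := by omega
  obtain ⟨β, z, O⟩ := orb_exists (K := K) hK hp8 hπ h
  have T := O.T
  have hkk := T.kk
  obtain ⟨n₃, hn₃⟩ : ∃ n, 3 * n = k := ⟨k / 3, by omega⟩
  set e' : K := algebraMap (ZMod p) K e with he'
  set Z' : K := algebraMap (ZMod p) K Z with hZ'
  have hfe : e' ^ p = e' := fix_algebraMap e
  have hfZ : Z' ^ p = Z' := fix_algebraMap Z
  have hee : e' ^ 4 = e' ^ 2 + 1 := by
    rw [he', ← map_pow, he, map_add, map_pow, map_one]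
  have hZZ : Z' ^ 4 = 27 * (e' ^ 2 + 2) := by
    rw [hZ', ← map_pow, hZ, map_mul, map_add, map_pow, map_ofNat, map_ofNat]
  obtain ⟨n₅, hn₅⟩ : ∃ n, 5 * n = k := by
    obtain ⟨t, ht⟩ := five_dvd hp T hn₃ hfe hfZ hee hZZ
    exact ⟨t, ht.symm⟩
  obtain ⟨hy, C3⟩ := cnd3 hp8 T hn₃
  obtain ⟨θ, τ₅, hθ, hLθ, C5⟩ := cnd5 hp8 T hn₅ hfe hee
  set y : K := z ^ n₃ - (z ^ n₃)⁻¹ with hyd
  set τ₃ : K := Lg p y with hτ₃
  -- basic symbols
  have h2 : (2 : K) ≠ 0 := T.two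
  have h3 : (3 : K) ≠ 0 := by exact_mod_cast cast_ne (p := p) (K := K) 3 (by norm_num) (by omega)
  have h5 : (5 : K) ≠ 0 := by exact_mod_cast cast_ne (p := p) (K := K) 5 (by norm_num) (by omega)
  have hL3 : Lg p (3 : K) = -1 := by
    rw [← Lg_neg hp4, ← hy, Lg_pow]
    exact C3.sq
  have hL5 : Lg p (5 : K) = 1 := by
    have e1 : (5 : K) = (2 * e' ^ 2 - 1) ^ 2 := by linear_combination (-4) * hee
    have hne : (2 * e' ^ 2 - 1 : K) ≠ 0 := by
      intro h0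
      rw [h0] at e1
      apply h5
      rw [e1]; ring
    rw [e1, Lg_pow]
    refine Lg_sq_fix hp2 hne ?_
    have e2 : (2 * e' ^ 2 - 1 : K) = algebraMap (ZMod p) K (2 * e ^ 2 - 1) := by
      rw [map_sub, map_mul, map_pow, map_one, map_ofNat]
    rw [e2]; exact fix_algebraMap _
  have hk0 : (k : K) ≠ 0 := by
    intro h0
    have : ((2 * k : ℕ) : K) = ((p + 1 : ℕ) : K) := by rw [hkk]
    have hch := charK (p := p) (K := K)
    push_cast at this
    rw [h0, mul_zero, CharP.cast_eq_zero K p, zero_add] at this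
    exact zero_ne_one this
  have hLk : Lg p (k : K) ^ 2 = 1 := Lg_sq_fix hp2 hk0 (cast_fix k)
  have e3 : (3 : K) * (n₃ : K) = (k : K) := by exact_mod_cast congrArg (fun t : ℕ => (t : K)) hn₃
  have e5 : (5 : K) * (n₅ : K) = (k : K) := by exact_mod_cast congrArg (fun t : ℕ => (t : K)) hn₅
  have hn30 : (n₃ : K) ≠ 0 := by
    intro h0
    rw [h0, mul_zero] at e3
    exact hk0 e3.symm
  have hn50 : (n₅ : K) ≠ 0 := by
    intro h0
    rw [h0, mul_zero] at e5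
    exact hk0 e5.symm
  have hLn3 : Lg p (n₃ : K) ^ 2 = 1 := Lg_sq_fix hp2 hn30 (cast_fix n₃)
  have hLn5 : Lg p (n₅ : K) ^ 2 = 1 := Lg_sq_fix hp2 hn50 (cast_fix n₅)
  have hL3k : -Lg p (n₃ : K) = Lg p (k : K) := by
    rw [← e3, Lg_mul, hL3]; ring
  have hL5k : Lg p (n₅ : K) = Lg p (k : K) := by
    rw [← e5, Lg_mul, hL5, one_mul]
  -- the product of the two `τ`
  have hττ : τ₃ * τ₅ = -1 := by
    have hZ0 : Z' ≠ 0 := by
      intro h0
      rw [h0] at hZZ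
      have h27 : (27 : K) ≠ 0 := by
        rw [show (27 : K) = 3 * 3 * 3 by norm_num]
        exact mul_ne_zero (mul_ne_zero h3 h3) h3
      have h4 : e' ^ 2 + 2 = 0 := by
        have : (27 : K) * (e' ^ 2 + 2) = 0 := by rw [← hZZ]; ring
        exact (mul_eq_zero.mp this).resolve_left h27
      apply h5
      linear_combination hee - (e' ^ 2 - 3) * h4
    have e6 : (y * θ - Z' ^ 2 / 3) * (y * θ + Z' ^ 2 / 3) = 0 := by
      have : (y * θ - Z' ^ 2 / 3) * (y * θ + Z' ^ 2 / 3) = y ^ 2 * θ ^ 2 - Z' ^ 4 / 9 := by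
        have h9 : (9 : K) = 3 * 3 := by norm_num
        rw [h9]
        field_simp
        ring
      rw [this, hy, hθ, hZZ]
      have h9 : (9 : K) ≠ 0 := by
        rw [show (9 : K) = 3 * 3 by norm_num]; exact mul_ne_zero h3 h3
      field_simp
      ring
    have e7 : Lg p (Z' ^ 2 / 3) = -1 := by
      rw [Lg_div, Lg_pow, Lg_sq_fix hp2 hZ0 hfZ, hL3]; norm_num
    rw [hτ₃, ← hLθ, ← Lg_mul]
    rcases mul_eq_zero.mp e6 with h6 | h6
    · rw [show y * θ = Z' ^ 2 / 3 by linear_combination h6]; exact e7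
    · rw [show y * θ = -(Z' ^ 2 / 3) by linear_combination h6, Lg_neg hp4]; exact e7
  -- the sign attached to the code
  obtain ⟨ε, hε, hdual⟩ := dual_family (ι := Fin k) hα hp8
  have hε2 : (ε : K) * (ε : K) = 1 := by
    rcases hε with h | h <;> rw [h] <;> norm_num
  have hc' : ∀ (I : Finset (Fin k)) (l : Fin k → P1 p), ((I.card : ℕ) : ZMod 2) = 0 →
      (∀ b : ZMod p, ∑ i ∈ I, loc p ε b (l i) = 0) → ∑ i ∈ I, c (l i) = 0 :=
    fun I l h1 h2 => hdual I l h1 h2 c hc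
  set R : K := Lg p (β ^ p - β) with hR
  set N : K := Lg p ((Ph β (l 0)) ^ p * Ph β (l 0)) with hN
  have hRR : R ^ 2 = -1 := Lg_sq_anti hp2 T.ρ0 T.hρ
  have hNN : N ^ 2 = 1 :=
    Lg_sq_fix hp2 (mul_ne_zero (pow_ne_zero _ (Ph_ne O.hβ _)) (Ph_ne O.hβ _)) (T.norm_fix _)
  have hNr : Lg p ((Ph β (r 0)) ^ p * Ph β (r 0)) = -N := O.norm_other
  have hτ3 : τ₃ ^ 2 = -1 := C3.sq
  have hτ5 : τ₅ ^ 2 = -1 := C5.sq
  -- the two signs
  set A : K := (ε : K) * Lg p (n₃ : K) * R * N * τ₃ with hA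
  have hA2 : (A - 1) * (A + 1) = 0 := by
    have : A ^ 2 = 1 := by
      have : A ^ 2 = ((ε : K) * (ε : K)) * (Lg p (n₃ : K) ^ 2) * R ^ 2 * N ^ 2 * τ₃ ^ 2 := by
        rw [hA]; ring
      rw [this, hε2, hLn3, hRR, hNN, hτ3]; ring
    linear_combination this
  have hrel : τ₅ = τ₃ := by
    linear_combination (-τ₃) * hττ + τ₅ * hτ3
  have hn53 : Lg p (n₅ : K) = -Lg p (n₃ : K) := by rw [hL5k, hL3k]
  rcases mul_eq_zero.mp hA2 with hA1 | hA1
  · -- `A = 1`: `l` by 3, `r` by 5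
    have hA' : (ε : K) * Lg p (n₃ : K) * R * N * τ₃ = 1 := by
      rw [← hA]; linear_combination hA1
    refine ⟨block_sing hp8 h.cyc_l O hn₃ (by norm_num) C3 hε ?_ hc',
      block_sing hp8 h.cyc_r O.swap hn₅ (by norm_num) C5 hε ?_ hc'⟩
    · rw [← hR, ← hN]
      linear_combination (N * τ₃) * hA' - ((ε : K) * Lg p (n₃ : K) * R * τ₃ ^ 2) * hNN -
        ((ε : K) * Lg p (n₃ : K) * R) * hτ3
    · rw [← hR, hNr, hn53, hrel]
      linear_combination (-N * τ₃) * hA' + ((ε : K) * Lg p (n₃ : K) * R * τ₃ ^ 2) * hNN +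
        ((ε : K) * Lg p (n₃ : K) * R) * hτ3
  · -- `A = -1`: `r` by 3, `l` by 5
    have hA' : (ε : K) * Lg p (n₃ : K) * R * N * τ₃ = -1 := by
      rw [← hA]; linear_combination hA1
    refine ⟨block_sing hp8 h.cyc_l O hn₅ (by norm_num) C5 hε ?_ hc',
      block_sing hp8 h.cyc_r O.swap hn₃ (by norm_num) C3 hε ?_ hc'⟩
    · rw [← hR, ← hN, hn53, hrel]
      linear_combination (-N * τ₃) * hA' + ((ε : K) * Lg p (n₃ : K) * R * τ₃ ^ 2) * hNN +
        ((ε : K) * Lg p (n₃ : K) * R) * hτ3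
    · rw [← hR, hNr]
      linear_combination (N * τ₃) * hA' - ((ε : K) * Lg p (n₃ : K) * R * τ₃ ^ 2) * hNN -
        ((ε : K) * Lg p (n₃ : K) * R) * hτ3

end

/-- Q1 fails for every prime of the explicit family. -/
theorem fail {p : ℕ} [Fact p.Prime] (hp : p % 24 = 17) {e Z : ZMod p} (he : e ^ 4 = e ^ 2 + 1)
    (hZ : Z ^ 4 = 27 * (e ^ 2 + 2)) {F : Type*} [Field F] [Algebra (ZMod 2) F] {α : F}
    (hα : IsPrimitiveRoot α p) {k : ℕ} [NeZero k] {π : Equiv.Perm (P1 p)} {l r : Fin k → P1 p}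
    (hπ : InPSL p π) (h : IsTwoCycles π l r) {c : P1 p → ZMod 2} (hc : c ∈ ExtQRCode p α) :
    ¬ IsUnit (block π l c) ∧ ¬ IsUnit (block π r c) := by
  have : Fintype (GaloisField p 2) := Fintype.ofFinite _
  have hK : Fintype.card (GaloisField p 2) = p ^ 2 := by
    rw [Fintype.card_eq_nat_card]
    exact GaloisField.card p 2 (by norm_num)
  exact fail_K hK hp he hZ hα hπ h hc

end Pool.QRC
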