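import Mathlib

set_option autoImplicit false
set_option linter.unusedSectionVars false

/-!
# Prime ideals with prescribed norm mod 3

Let `E` be a totally complex number field (it contains a square root of `-1`), `P` a prime ideal
of norm `p₀ ≡ 2 mod 3` and `D` a multiple of `3` prime to `p₀`. Then there is a prime ideal prime
to `p₀ D` whose norm is `≡ 2 mod 3`.
-/

open NumberField

namespace Pool.QRC

section pos

variable {E : Type*} [Field E] [NumberField E]

/-- norms are nonnegative when `-1` is a square -/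
lemma norm_nonneg' {I : E} (hI : I * I = -1) (x : E) : 0 ≤ Algebra.norm ℚ x := by
  classical
  have h := Algebra.norm_eq_prod_embeddings ℚ (L := E) ℂ x
  let cj : (E →ₐ[ℚ] ℂ) → (E →ₐ[ℚ] ℂ) := fun σ =>
    ((Complex.conjAe : ℂ →ₐ[ℝ] ℂ).restrictScalars ℚ).comp σ
  have hcj : ∀ σ y, cj σ y = (starRingEnd ℂ) (σ y) := fun σ y => rfl
  have hcc : ∀ σ, cj (cj σ) = σ := by
    intro σ
    ext y
    rw [hcj, hcj, Complex.conj_conj]
  have hdich : ∀ σ : E →ₐ[ℚ] ℂ, σ I = Complex.I ∨ σ I = -Complex.I := by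
    intro σ
    have h1 : σ I * σ I = Complex.I * Complex.I := by
      rw [← map_mul, hI, map_neg, map_one, Complex.I_mul_I]
    exact mul_self_eq_mul_self_iff.mp h1
  have hneI : -Complex.I ≠ Complex.I := by
    intro h1
    have h2 : (2 : ℂ) * Complex.I = 0 := by linear_combination -h1
    rcases mul_eq_zero.mp h2 with h3 | h3
    · norm_num at h3
    · exact Complex.I_ne_zero h3
  have hflip : ∀ σ : E →ₐ[ℚ] ℂ, (cj σ I = Complex.I ↔ ¬ σ I = Complex.I) := by
    intro σ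
    rw [hcj]
    rcases hdich σ with h1 | h1
    · rw [h1, Complex.conj_I]
      simp [hneI]
    · rw [h1, map_neg, Complex.conj_I, neg_neg]
      simp [hneI]
  set Q : ℂ := ∏ σ : E →ₐ[ℚ] ℂ with σ I = Complex.I, σ x with hQ
  have h2 : ∏ σ : E →ₐ[ℚ] ℂ with ¬ σ I = Complex.I, σ x = (starRingEnd ℂ) Q := by
    rw [hQ, map_prod]
    refine Finset.prod_nbij' cj cj ?_ ?_ ?_ ?_ ?_
    · intro σ hσ
      simp only [Finset.mem_filter, Finset.mem_univ, true_and] at hσ ⊢
      exact (hflip σ).mpr hσ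
    · intro σ hσ
      simp only [Finset.mem_filter, Finset.mem_univ, true_and] at hσ ⊢
      intro h3
      exact (hflip σ).mp h3 hσ
    · intro σ _; exact hcc σ
    · intro σ _; exact hcc σ
    · intro σ _
      rw [hcj, Complex.conj_conj]
  rw [← Finset.prod_filter_mul_prod_filter_not Finset.univ
    (fun σ : E →ₐ[ℚ] ℂ => σ I = Complex.I), h2, ← hQ, Complex.mul_conj] at h
  have h3 : ((Algebra.norm ℚ x : ℚ) : ℝ) = Complex.normSq Q := by
    have h4 : (((Algebra.norm ℚ x : ℚ) : ℝ) : ℂ) = ((Complex.normSq Q : ℝ) : ℂ) := by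
      rw [← h]
      simp
    exact_mod_cast h4
  have h5 : (0 : ℝ) ≤ ((Algebra.norm ℚ x : ℚ) : ℝ) := by
    rw [h3]; exact Complex.normSq_nonneg Q
  exact_mod_cast h5

/-- the norm of an element `≡ 1 mod 3` is `≡ 1 mod 3` -/
lemma norm_one_mod (w : 𝓞 E) : ((Algebra.norm ℤ (1 + 3 * w) : ℤ) : ZMod 3) = 1 := by
  classical
  let b := RingOfIntegers.basis E
  rw [Algebra.norm_eq_matrix_det b, map_add, map_one, map_mul, map_ofNat]
  have h := RingHom.map_det (Int.castRingHom (ZMod 3)) (1 + 3 * Algebra.leftMulMatrix b w)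
  rw [eq_intCast] at h
  rw [h]
  have h2 : (Int.castRingHom (ZMod 3)).mapMatrix (1 + 3 * Algebra.leftMulMatrix b w) = 1 := by
    rw [map_add, map_one, map_mul, map_ofNat]
    have h3 : (3 : Matrix (Module.Free.ChooseBasisIndex ℤ (𝓞 E))
        (Module.Free.ChooseBasisIndex ℤ (𝓞 E)) (ZMod 3)) = 0 := by
      have h4 : (3 : ZMod 3) = 0 := by decide
      have h5 : (algebraMap (ZMod 3) (Matrix (Module.Free.ChooseBasisIndex ℤ (𝓞 E))
        (Module.Free.ChooseBasisIndex ℤ (𝓞 E)) (ZMod 3))) 3 = 0 := by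
        rw [h4, map_zero]
      rwa [map_ofNat] at h5
    rw [h3, zero_mul, add_zero]
  rw [h2, Matrix.det_one]

/-- some prime factor has norm `≡ 2 mod 3` -/
lemma exists_factor (J : Ideal (𝓞 E)) (hJ : J.absNorm % 3 = 2) :
    ∃ Q : Ideal (𝓞 E), Prime Q ∧ Q ∣ J ∧ Q.absNorm % 3 = 2 := by
  revert hJ
  refine UniqueFactorizationMonoid.induction_on_prime
    (P := fun J : Ideal (𝓞 E) => J.absNorm % 3 = 2 → ∃ Q : Ideal (𝓞 E), Prime Q ∧ Q ∣ J ∧
      Q.absNorm % 3 = 2) J ?_ ?_ ?_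
  · intro h
    rw [Ideal.zero_eq_bot, Ideal.absNorm_bot] at h
    omega
  · intro J hJ h
    rw [Ideal.isUnit_iff.mp hJ, Ideal.absNorm_top] at h
    omega
  · intro J Q hJ hQ ih h
    rw [map_mul, Nat.mul_mod] at h
    by_cases h1 : Q.absNorm % 3 = 2
    · exact ⟨Q, hQ, dvd_mul_right Q J, h1⟩
    · have h2 : J.absNorm % 3 = 2 := by
        have h3 : Q.absNorm % 3 = 0 ∨ Q.absNorm % 3 = 1 := by omega
        rcases h3 with h3 | h3
        · rw [h3] at h; simp at h
        · rw [h3] at h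
          omega
      obtain ⟨Q', h4, h5, h6⟩ := ih h2
      exact ⟨Q', h4, h5.mul_left Q, h6⟩

/-- the Euclid step -/
theorem euclid {I : E} (hI : I * I = -1) {p₀ : ℕ} (hp₀ : p₀ % 3 = 2)
    (P : Ideal (𝓞 E)) (hPm : P.IsMaximal) (hPN : P.absNorm = p₀)
    {D : ℕ} (h3D : 3 ∣ D) (hD : ((D : ℕ) : 𝓞 E) ∉ P) :
    ∃ Q : Ideal (𝓞 E), Prime Q ∧ Q.absNorm % 3 = 2 ∧ ((D : ℕ) : 𝓞 E) ∉ Q ∧
      ((p₀ : ℕ) : 𝓞 E) ∉ Q := by
  have hP0 : P ≠ ⊥ := by
    intro h
    rw [h, Ideal.absNorm_bot] at hPN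
    omega
  have hP1 : P ≠ ⊤ := hPm.ne_top
  have hPprime : Prime P := Ideal.prime_of_isPrime hP0 hPm.isPrime
  have hp0 : ((p₀ : ℕ) : 𝓞 E) ≠ 0 := by
    rw [Nat.cast_ne_zero]; omega
  have hD0 : ((D : ℕ) : 𝓞 E) ≠ 0 := by
    intro h; apply hD; rw [h]; exact P.zero_mem
  -- the part of `p₀` prime to `P`
  have hfin : FiniteMultiplicity P (Ideal.span {((p₀ : ℕ) : 𝓞 E)}) := by
    refine FiniteMultiplicity.of_prime_left hPprime ?_
    rw [Ne, Ideal.zero_eq_bot, Ideal.span_singleton_eq_bot]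
    exact hp0
  obtain ⟨B, hB1, hB2⟩ := hfin.exists_eq_pow_mul_and_not_dvd
  set e := multiplicity P (Ideal.span {((p₀ : ℕ) : 𝓞 E)}) with he
  set C : Ideal (𝓞 E) := B * Ideal.span {((D : ℕ) : 𝓞 E)} with hC
  have hPC : ¬ P ∣ C := by
    intro h
    rcases hPprime.dvd_or_dvd h with h1 | h1
    · exact hB2 h1
    · rw [Ideal.dvd_span_singleton] at h1
      exact hD h1
  -- coprimality
  have hcop : IsCoprime (P ^ 2) C := by
    refine IsCoprime.pow_left ?_
    rw [Ideal.isCoprime_iff_sup_eq]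
    refine hPm.out.2 _ ?_
    refine lt_of_le_of_ne le_sup_left ?_
    intro h
    apply hPC
    rw [Ideal.dvd_iff_le, h]
    exact le_sup_right
  obtain ⟨a, ha, b, hb, hab⟩ := Ideal.isCoprime_iff_exists.mp hcop
  obtain ⟨y, hy1, hy2⟩ := Ideal.exists_mem_pow_notMem_pow_succ P hP0 hP1 1
  rw [pow_one] at hy1
  set x : 𝓞 E := y * b + a with hx
  have hxy : x - y ∈ P ^ 2 := by
    have : x - y = a * (1 - y) := by rw [hx]; linear_combination y * hab
    rw [this]
    exact Ideal.mul_mem_right _ _ ha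
  have hx1 : x - 1 ∈ C := by
    have : x - 1 = b * (y - 1) := by rw [hx]; linear_combination hab
    rw [this]
    exact Ideal.mul_mem_right _ _ hb
  have hxP : x ∈ P := by
    have h1 : x - y ∈ P := Ideal.pow_le_self two_ne_zero hxy
    have : x = (x - y) + y := by ring
    rw [this]
    exact P.add_mem h1 hy1
  have hxP2 : x ∉ P ^ 2 := by
    intro h
    apply hy2
    have : y = x - (x - y) := by ring
    rw [this]
    exact (P ^ (1 + 1)).sub_mem h hxy
  have hx0 : x ≠ 0 := by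
    intro h; apply hxP2; rw [h]; exact (P ^ 2).zero_mem
  -- the cofactor
  obtain ⟨J, hJ⟩ : P ∣ Ideal.span {x} := Ideal.dvd_span_singleton.mpr hxP
  have hPJ : ¬ P ∣ J := by
    rintro ⟨J', hJ'⟩
    apply hxP2
    rw [← Ideal.dvd_span_singleton, hJ, hJ', ← mul_assoc, ← sq]
    exact dvd_mul_right _ _
  -- norms
  have hCD : C ≤ Ideal.span {((D : ℕ) : 𝓞 E)} := Ideal.mul_le_right
  have hCB : C ≤ B := Ideal.mul_le_left
  have hnorm : (((Ideal.span {x}).absNorm : ℕ) : ZMod 3) = 1 := by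
    obtain ⟨w, hw⟩ : ∃ w, x = 1 + 3 * w := by
      have h1 := hCD hx1
      rw [Ideal.mem_span_singleton] at h1
      obtain ⟨v, hv⟩ := h1
      obtain ⟨D', hD'⟩ := h3D
      refine ⟨(D' : 𝓞 E) * v, ?_⟩
      rw [hD'] at hv
      push_cast at hv
      linear_combination hv
    have h1 := norm_one_mod w
    rw [← hw] at h1
    have h2 : 0 ≤ Algebra.norm ℤ x := by
      have h3 := norm_nonneg' hI (x : E)
      rw [← Algebra.coe_norm_int] at h3
      exact_mod_cast h3
    rw [Ideal.absNorm_span_singleton, ← h1]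
    have h3 : (((Algebra.norm ℤ x).natAbs : ℕ) : ℤ) = Algebra.norm ℤ x := Int.natAbs_of_nonneg h2
    have h4 := congrArg (fun t : ℤ => (t : ZMod 3)) h3
    simp only [Int.cast_natCast] at h4
    exact h4
  have hJN : J.absNorm % 3 = 2 := by
    rw [hJ, map_mul, hPN] at hnorm
    have h1 : ((p₀ * J.absNorm : ℕ) : ZMod 3) = ((1 : ℕ) : ZMod 3) := by
      rw [hnorm]; simp
    rw [ZMod.natCast_eq_natCast_iff'] at h1
    rw [Nat.mul_mod, hp₀] at h1
    omega
  obtain ⟨Q, hQ, hQJ, hQN⟩ := exists_factor J hJN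
  have hQx : x ∈ Q := by
    rw [← Ideal.dvd_span_singleton, hJ]
    exact hQJ.mul_left P
  have hQprime : Q.IsPrime := Ideal.isPrime_of_prime hQ
  have hQone : ∀ R : Ideal (𝓞 E), x - 1 ∈ R → R ≤ Q → False := by
    intro R h1 h2
    apply hQprime.ne_top
    rw [Ideal.eq_top_iff_one]
    have : (1 : 𝓞 E) = x - (x - 1) := by ring
    rw [this]
    exact Q.sub_mem hQx (h2 h1)
  refine ⟨Q, hQ, hQN, ?_, ?_⟩
  · intro h
    exact hQone _ (hCD hx1) (by rw [Ideal.span_singleton_le_iff_mem]; exact h)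
  · intro h
    rw [← Ideal.dvd_span_singleton, hB1] at h
    rcases hQ.dvd_or_dvd h with h1 | h1
    · have h2 := hQ.dvd_of_dvd_pow h1
      have h3 : Associated Q P := hQ.associated_of_dvd hPprime h2
      rw [associated_iff_eq] at h3
      rw [h3] at hQJ
      exact hPJ hQJ
    · exact hQone _ (hCB hx1) (Ideal.dvd_iff_le.mp h1)

end pos

end Pool.QRC
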