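import Pool.Agent.H70.QR.Defs
import Pool.Agent.H70.QR.Cls

set_option autoImplicit false
set_option linter.unusedSectionVars false

/-!
# The two cycles are the two orbits of a torus
-/

open Polynomial OnePoint

namespace Pool.QRC

section

variable {p : ℕ} [Fact p.Prime] {K : Type*} [Field K] [Fintype K] [Algebra (ZMod p) K]

lemma charK : CharP K p :=
  charP_of_injective_algebraMap (algebraMap (ZMod p) K).injective p

lemma invol (hK : Fintype.card K = p ^ 2) (x : K) : (x ^ p) ^ p = x := by
  rw [← pow_mul, ← sq, ← hK]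
  exact FiniteField.pow_card x

lemma fix_algebraMap (c : ZMod p) : (algebraMap (ZMod p) K c) ^ p = algebraMap (ZMod p) K c := by
  rw [← map_pow, ZMod.pow_card]

lemma cast_fix' (m : ℕ) : ((m : ℕ) : K) ^ p = (m : K) := by
  rw [← map_natCast (algebraMap (ZMod p) K) m, fix_algebraMap]

/-- the fixed points of `x ↦ x ^ p` -/
lemma fix_iff {x : K} (hx : x ^ p = x) : ∃ c : ZMod p, algebraMap (ZMod p) K c = x := by
  classical
  have hp1 : 1 < p := (Fact.out : p.Prime).one_lt
  have h1 : (X ^ p - X : K[X]) ≠ 0 := FiniteField.X_pow_card_sub_X_ne_zero K hp1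
  have h2 : (X ^ p - X : K[X]).natDegree = p := FiniteField.X_pow_card_sub_X_natDegree_eq K hp1
  set S : Finset K := Finset.univ.image (algebraMap (ZMod p) K) with hS
  have hSc : S.card = p := by
    rw [hS, Finset.card_image_of_injective _ (algebraMap (ZMod p) K).injective, Finset.card_univ,
      ZMod.card]
  have hSr : S ⊆ (X ^ p - X : K[X]).roots.toFinset := by
    intro y hy
    rw [hS, Finset.mem_image] at hy
    obtain ⟨c, _, rfl⟩ := hy
    rw [Multiset.mem_toFinset, mem_roots h1]
    simp [IsRoot.def, fix_algebraMap]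
  have hle : (X ^ p - X : K[X]).roots.toFinset.card ≤ S.card := by
    rw [hSc]
    calc _ ≤ (X ^ p - X : K[X]).roots.card := Multiset.toFinset_card_le _
      _ ≤ (X ^ p - X : K[X]).natDegree := card_roots' _
      _ = p := h2
  have heq := Finset.eq_of_subset_of_card_le hSr hle
  have hxm : x ∈ (X ^ p - X : K[X]).roots.toFinset := by
    rw [Multiset.mem_toFinset, mem_roots h1]
    simp [IsRoot.def, hx]
  rw [← heq, hS, Finset.mem_image] at hxm
  obtain ⟨c, _, hc⟩ := hxm
  exact ⟨c, hc⟩

lemma two_ne (hp : p % 2 = 1) : (2 : K) ≠ 0 := by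
  have := charK (p := p) (K := K)
  intro h
  have h1 : ((2 : ℕ) : K) = 0 := by exact_mod_cast h
  rw [CharP.cast_eq_zero_iff K p] at h1
  have h2 := Nat.le_of_dvd (by norm_num) h1
  have h3 := (Fact.out : p.Prime).two_le
  have : p = 2 := le_antisymm h2 h3
  omega

/-- elements of the prime field are squares in `K` -/
lemma sq_root (hK : Fintype.card K = p ^ 2) (hp : p % 2 = 1) (a : ZMod p) :
    ∃ y : K, y * y = algebraMap (ZMod p) K a := by
  have := charK (p := p) (K := K)
  by_cases ha : a = 0
  · exact ⟨0, by rw [ha, map_zero, mul_zero]⟩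
  have ha' : algebraMap (ZMod p) K a ≠ 0 := by
    rw [Ne, map_eq_zero]; exact ha
  have hr : ringChar K ≠ 2 := by
    rw [ringChar.eq K p]
    rintro rfl
    omega
  have h := (FiniteField.isSquare_iff hr ha').mpr (by
    rw [hK]
    obtain ⟨t, ht⟩ : ∃ t, p = 2 * t + 1 := ⟨p / 2, by omega⟩
    have e : p ^ 2 / 2 = (p - 1) * (t + 1) := by
      rw [ht]
      have : (2 * t + 1) ^ 2 = 2 * (2 * t * (t + 1)) + 1 := by ring
      rw [this, Nat.add_sub_cancel]
      omega
    rw [e, pow_mul, ← map_pow, ZMod.pow_card_sub_one_eq_one ha, map_one, one_pow])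
  obtain ⟨y, hy⟩ := h
  exact ⟨y, hy.symm⟩

/-- coordinates on the projective line -/
noncomputable def Ph (β : K) (y : P1 p) : K :=
  Option.elim (y : Option (ZMod p)) 1 (fun x => algebraMap (ZMod p) K x + β)

lemma Ph_inf (β : K) : Ph β (∞ : P1 p) = 1 := rfl
lemma Ph_coe (β : K) (x : ZMod p) : Ph β (x : P1 p) = algebraMap (ZMod p) K x + β := rfl

lemma frob_add (x y : K) : (x + y) ^ p = x ^ p + y ^ p := by
  have := charK (p := p) (K := K)
  exact add_pow_char x y p

lemma frob_sub (x y : K) : (x - y) ^ p = x ^ p - y ^ p := by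
  have := charK (p := p) (K := K)
  exact sub_pow_char x y

lemma Ph_ne {β : K} (hβ : β ^ p ≠ β) (y : P1 p) : Ph β y ≠ 0 := by
  induction y using OnePoint.rec with
  | infty => rw [Ph_inf]; exact one_ne_zero
  | coe x =>
    rw [Ph_coe]
    intro h
    have h1 : β = -algebraMap (ZMod p) K x := by linear_combination h
    apply hβ
    rw [h1, ← map_neg, fix_algebraMap]

lemma Ph_inj {β : K} (hβ : β ^ p ≠ β) {x y : P1 p} {c : K} (hc : c ^ p = c)
    (h : Ph β x = c * Ph β y) : x = y := by
  have h0 := Ph_ne hβ x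
  have hc0 : c ≠ 0 := by
    rintro rfl
    rw [zero_mul] at h
    exact h0 h
  have hb : β ^ p - β ≠ 0 := sub_ne_zero.mpr hβ
  induction x using OnePoint.rec with
  | infty =>
    induction y using OnePoint.rec with
    | infty => rfl
    | coe y =>
      exfalso
      rw [Ph_inf, Ph_coe] at h
      have h2 : (1 : K) ^ p = (c * (algebraMap (ZMod p) K y + β)) ^ p := by rw [h]
      rw [one_pow, mul_pow, frob_add, fix_algebraMap, hc] at h2
      have h3 : c * (β ^ p - β) = 0 := by linear_combination h - h2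
      exact (mul_ne_zero hc0 hb) h3
  | coe x =>
    induction y using OnePoint.rec with
    | infty =>
      exfalso
      rw [Ph_inf, Ph_coe] at h
      have h2 : (algebraMap (ZMod p) K x + β) ^ p = (c * 1) ^ p := by rw [h]
      rw [frob_add, fix_algebraMap, mul_one, hc] at h2
      apply hb
      linear_combination h2 - h
    | coe y =>
      rw [Ph_coe, Ph_coe] at h
      have h2 : (algebraMap (ZMod p) K x + β) ^ p = (c * (algebraMap (ZMod p) K y + β)) ^ p := by
        rw [h]
      rw [frob_add, fix_algebraMap, mul_pow, frob_add, fix_algebraMap, hc] at h2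
      have h3 : (c - 1) * (β ^ p - β) = 0 := by linear_combination h - h2
      have h4 : c = 1 := by
        have := (mul_eq_zero.mp h3).resolve_right hb
        linear_combination this
      rw [h4] at h
      have h5 : algebraMap (ZMod p) K x = algebraMap (ZMod p) K y := by linear_combination h
      rw [(algebraMap (ZMod p) K).injective h5]

/-- the data attached to the two cycles -/
structure Orb {k : ℕ} [NeZero k] (l r : Fin k → P1 p) (β z : K) : Prop where
  hβ : β ^ p ≠ β
  T : Tor p k (β ^ p - β) z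
  hl : ∀ i : Fin k, ∃ s : K, s ^ p = s ∧ s ≠ 0 ∧ Ph β (l i) = s * (z ^ i.val * Ph β (l 0))
  hr : ∀ i : Fin k, ∃ s : K, s ^ p = s ∧ s ≠ 0 ∧ Ph β (r i) = s * (z ^ i.val * Ph β (r 0))
  cov : ∀ x : P1 p, (∃ i, x = l i) ∨ ∃ i, x = r i
  oth : ∃ (s : K) (a : ℕ), s ^ p = s ∧ s ≠ 0 ∧
    Ph β (r 0) = s * (z ^ a * ((β ^ p - β) * Ph β (l 0)))

lemma cover {k : ℕ} [NeZero k] {π : Equiv.Perm (P1 p)} {l r : Fin k → P1 p}
    (h : IsTwoCycles π l r) (x : P1 p) : (∃ i, x = l i) ∨ ∃ i, x = r i := by
  classical
  let g : Fin k ⊕ Fin k → P1 p := Sum.elim l r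
  have hinj : Function.Injective g := by
    intro a b hab
    rcases a with a | a <;> rcases b with b | b
    · exact congrArg _ (h.inj_l hab)
    · exact absurd hab (h.disj a b)
    · exact absurd hab.symm (h.disj b a)
    · exact congrArg _ (h.inj_r hab)
  have hcard : Fintype.card (Fin k ⊕ Fin k) = Fintype.card (P1 p) := by
    rw [Fintype.card_sum, Fintype.card_fin]
    have : Fintype.card (P1 p) = Fintype.card (ZMod p) + 1 := Fintype.card_option
    rw [this, ZMod.card, ← h.length_eq]
    ring
  have hb := (Fintype.bijective_iff_injective_and_card g).mpr ⟨hinj, hcard⟩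
  obtain ⟨a, ha⟩ := hb.2 x
  rcases a with a | a
  · exact Or.inl ⟨a, ha.symm⟩
  · exact Or.inr ⟨a, ha.symm⟩

lemma iter_l {k : ℕ} [NeZero k] {π : Equiv.Perm (P1 p)} {l : Fin k → P1 p}
    (h : ∀ i, π (l i) = l (i + 1)) (i : Fin k) : (π : P1 p → P1 p)^[i.val] (l 0) = l i := by
  have key : ∀ t : ℕ, (π : P1 p → P1 p)^[t] (l 0) = l (Fin.ofNat k t) := by
    intro t
    induction t with
    | zero => rfl
    | succ t ih =>
      rw [Function.iterate_succ_apply', ih, h]
      congr 1
      ext
      simp [Fin.val_add]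
  rw [key]
  congr 1
  ext
  simp

lemma iter_k {k : ℕ} [NeZero k] {π : Equiv.Perm (P1 p)} {l : Fin k → P1 p}
    (h : ∀ i, π (l i) = l (i + 1)) : (π : P1 p → P1 p)^[k] (l 0) = l 0 := by
  have key : ∀ t : ℕ, (π : P1 p → P1 p)^[t] (l 0) = l (Fin.ofNat k t) := by
    intro t
    induction t with
    | zero => rfl
    | succ t ih =>
      rw [Function.iterate_succ_apply', ih, h]
      congr 1
      ext
      simp [Fin.val_add]
  rw [key]
  congr 1
  ext
  simp

end

end Pool.QRC
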