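import Pool.Agent.H70.QR.Inf1
import Pool.Agent.H70.QR.Orb

set_option autoImplicit false
set_option linter.unusedSectionVars false

/-!
# Infinitely many primes of the family

The seed is `p = 89`: the system `ζ⁴ = -1`, `e⁴ = e² + 1`, `Z⁴ = 27 (e² + 2)` has a solution in
the `89`-adic integers (Hensel). The number field generated by such a solution inside `ℚ_[89]`
has a prime ideal of norm `89`, and Euclid's argument modulo `3` produces new primes.
-/

open NumberField Polynomial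

namespace Pool.QRC

/-- a simple root modulo `p` lifts -/
lemma hensel1 {p : ℕ} [Fact p.Prime] (F : ℤ_[p][X]) (a : ℤ_[p])
    (h0 : PadicInt.toZMod (F.eval a) = 0) (h1 : PadicInt.toZMod (F.derivative.eval a) ≠ 0) :
    ∃ z : ℤ_[p], F.eval z = 0 ∧ PadicInt.toZMod z = PadicInt.toZMod a := by
  have key : ∀ x : ℤ_[p], PadicInt.toZMod x = 0 ↔ ‖x‖ < 1 := by
    intro x
    rw [← RingHom.mem_ker, PadicInt.ker_toZMod, IsLocalRing.mem_maximalIdeal,
      PadicInt.mem_nonunits]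
  have hn1 : ‖F.derivative.eval a‖ = 1 := by
    have h2 : ¬ ‖F.derivative.eval a‖ < 1 := fun h => h1 ((key _).mpr h)
    exact le_antisymm (PadicInt.norm_le_one _) (not_lt.mp h2)
  have hn0 : ‖F.eval a‖ < 1 := (key _).mp h0
  have hyp : ‖F.aeval a‖ < ‖F.derivative.aeval a‖ ^ 2 := by
    simp only [coe_aeval_eq_eval]
    rw [hn1, one_pow]
    exact hn0
  obtain ⟨z, hz, hz1, -, -⟩ := hensels_lemma hyp
  simp only [coe_aeval_eq_eval] at hz hz1
  rw [hn1] at hz1
  refine ⟨z, hz, ?_⟩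
  rw [← sub_eq_zero, ← map_sub]
  exact (key _).mpr hz1

/-- square roots descend in extensions of odd degree -/
lemma odd_descent {k : Type*} [Field k] [Fintype k] {q f : ℕ} (hq : q % 2 = 1)
    (h2 : (2 : k) ≠ 0) (hcard : Fintype.card k = q ^ f) (hf : f % 2 = 1) {x : k}
    (h : (x ^ 2) ^ q = x ^ 2) : x ^ q = x := by
  have h1 : (x ^ q) * (x ^ q) = x * x := by
    rw [← sq, ← sq, ← h, ← pow_mul, ← pow_mul, mul_comm]
  rcases mul_self_eq_mul_self_iff.mp h1 with h3 | h3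
  · exact h3
  · have hqo : Odd q := Nat.odd_iff.mpr hq
    have key : ∀ j : ℕ, x ^ (q ^ j) = (-1) ^ j * x := by
      intro j
      induction j with
      | zero => simp
      | succ j ih =>
        rw [pow_succ, pow_mul, ih, mul_pow, h3, ← pow_mul, mul_comm j q, pow_mul,
          hqo.neg_one_pow, pow_succ]
        ring
    have h4 := key f
    rw [← hcard, FiniteField.pow_card, (Nat.odd_iff.mpr hf).neg_one_pow] at h4
    have h5 : 2 * x = 0 := by linear_combination h4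
    have h6 : x = 0 := (mul_eq_zero.mp h5).resolve_left h2
    rw [h6, zero_pow]
    rintro rfl
    omega

/-- the step from a prime ideal of norm `≡ 2 mod 3` to a prime of the family -/
lemma prime_of_ideal {E : Type*} [Field E] [NumberField E] {ζ e Z : 𝓞 E} (hζ : ζ ^ 4 = -1)
    (he : e ^ 4 = e ^ 2 + 1) (hZ : Z ^ 4 = 27 * (e ^ 2 + 2)) {Q : Ideal (𝓞 E)} (hQ : Prime Q)
    (hN : Q.absNorm % 3 = 2) (h2Q : (2 : 𝓞 E) ∉ Q) :
    ∃ q : ℕ, q.Prime ∧ ((q : ℕ) : 𝓞 E) ∈ Q ∧ q % 24 = 17 ∧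
      ∃ e Z : ZMod q, e ^ 4 = e ^ 2 + 1 ∧ Z ^ 4 = 27 * (e ^ 2 + 2) := by
  classical
  have hQp : Q.IsPrime := Ideal.isPrime_of_prime hQ
  have hQ0 : Q ≠ ⊥ := hQ.ne_zero
  have hQm : Q.IsMaximal := hQp.isMaximal hQ0
  let _ : Field (𝓞 E ⧸ Q) := Ideal.Quotient.field Q
  have hfin : Finite (𝓞 E ⧸ Q) := Ideal.finiteQuotientOfFreeOfNeBot Q hQ0
  obtain ⟨k, _, _, π, hπ, hk⟩ : ∃ (k : Type _) (_ : Field k) (_ : Fintype k) (π : 𝓞 E →+* k),
      (∀ x, π x = 0 ↔ x ∈ Q) ∧ Fintype.card k = Q.absNorm := by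
    refine ⟨𝓞 E ⧸ Q, inferInstance, Fintype.ofFinite _, Ideal.Quotient.mk Q,
      fun x => Ideal.Quotient.eq_zero_iff_mem, ?_⟩
    rw [Fintype.card_eq_nat_card]
    rfl
  obtain ⟨q, hq⟩ := CharP.exists k
  obtain ⟨f, hqp, hcard⟩ := FiniteField.card k q
  have hqf : Fact q.Prime := ⟨hqp⟩
  have h2k : (2 : k) ≠ 0 := by
    intro h
    apply h2Q
    rw [← hπ, map_ofNat]
    exact h
  have hq2 : q ≠ 2 := by
    rintro rfl
    apply h2k
    have := CharP.cast_eq_zero k 2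
    exact_mod_cast this
  have hqodd : q % 2 = 1 := by
    rcases hqp.eq_two_or_odd with h | h
    · exact absurd h hq2
    · exact h
  rw [hcard] at hk
  rw [← hk] at hN
  -- `q ≡ 2 mod 3` and `f` is odd
  have hq3 : q % 3 = 2 ∧ (f : ℕ) % 2 = 1 := by
    have hf0 : (f : ℕ) ≠ 0 := f.pos.ne'
    have h3 : q % 3 = 0 ∨ q % 3 = 1 ∨ q % 3 = 2 := by omega
    rw [Nat.pow_mod] at hN
    rcases h3 with h | h | h
    · rw [h, zero_pow hf0] at hN; omega
    · rw [h, one_pow] at hN; omega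
    · refine ⟨h, ?_⟩
      by_contra hf
      have hf' : (f : ℕ) = 2 * ((f : ℕ) / 2) := by omega
      rw [h, hf', pow_mul, Nat.pow_mod] at hN
      norm_num at hN
  obtain ⟨hq3, hfodd⟩ := hq3
  let _ : Algebra (ZMod q) k := ZMod.algebra k q
  have hod : ∀ x : k, (x ^ 2) ^ q = x ^ 2 → x ^ q = x := fun x hx =>
    odd_descent hqodd h2k hcard hfodd hx
  have hqo : Odd q := Nat.odd_iff.mpr hqodd
  -- images
  have hζk : (π ζ) ^ 4 = -1 := by rw [← map_pow, hζ, map_neg, map_one]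
  have hek : (π e) ^ 4 = (π e) ^ 2 + 1 := by rw [← map_pow, he, map_add, map_pow, map_one]
  have hZk : (π Z) ^ 4 = 27 * ((π e) ^ 2 + 2) := by
    rw [← map_pow, hZ, map_mul, map_add, map_pow, map_ofNat, map_ofNat]
  have hcast : ∀ m : ℕ, ((m : ℕ) : k) ^ q = (m : k) := cast_fix'
  have hfζ : (π ζ) ^ q = π ζ := by
    apply hod
    apply hod
    have h4 : ((π ζ) ^ 2) ^ 2 = -1 := by rw [← pow_mul]; exact hζk
    rw [h4, hqo.neg_one_pow]
  have hf2 : (2 : k) ^ q = 2 := by exact_mod_cast hcast 2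
  have hf27 : (27 : k) ^ q = 27 := by exact_mod_cast hcast 27
  have hfe : (π e) ^ q = π e := by
    apply hod
    have h1 : (2 * (π e) ^ 2 - 1) ^ q = 2 * (π e) ^ 2 - 1 := by
      apply hod
      have h2 : (2 * (π e) ^ 2 - 1) ^ 2 = 5 := by linear_combination 4 * hek
      rw [h2]
      exact_mod_cast hcast 5
    rw [frob_sub (p := q), one_pow, mul_pow, hf2] at h1
    refine mul_left_cancel₀ h2k ?_
    linear_combination h1
  have hfZ : (π Z) ^ q = π Z := by
    apply hod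
    apply hod
    have h4 : ((π Z) ^ 2) ^ 2 = 27 * ((π e) ^ 2 + 2) := by rw [← pow_mul]; exact hZk
    rw [h4, mul_pow, hf27, frob_add (p := q), hf2, ← pow_mul, mul_comm 2 q, pow_mul, hfe]
  obtain ⟨ζ', hζ'⟩ := fix_iff (p := q) hfζ
  obtain ⟨e', he'⟩ := fix_iff (p := q) hfe
  obtain ⟨Z', hZ'⟩ := fix_iff (p := q) hfZ
  have hinj : Function.Injective (algebraMap (ZMod q) k) := (algebraMap (ZMod q) k).injective
  have hζq : ζ' ^ 4 = -1 := by
    apply hinj
    rw [map_pow, hζ', hζk, map_neg, map_one]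
  have heq : e' ^ 4 = e' ^ 2 + 1 := by
    apply hinj
    rw [map_pow, map_add, map_pow, map_one, he', hek]
  have hZq : Z' ^ 4 = 27 * (e' ^ 2 + 2) := by
    apply hinj
    rw [map_pow, hZ', hZk, map_mul, map_add, map_pow, map_ofNat, map_ofNat, he']
  refine ⟨q, hqp, ?_, ?_, e', Z', heq, hZq⟩
  · rw [← hπ, map_natCast, CharP.cast_eq_zero]
  · -- `q ≡ 1 mod 8`
    have h1 : (-1 : ZMod q) ≠ 1 := by
      have : Fact (2 < q) := ⟨lt_of_le_of_ne hqp.two_le (Ne.symm hq2)⟩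
      exact ZMod.neg_one_ne_one
    have hord : orderOf ζ' = 2 ^ 3 := by
      refine orderOf_eq_prime_pow (p := 2) ?_ ?_
      · rw [show 2 ^ 2 = 4 by norm_num, hζq]; exact h1
      · rw [show 2 ^ (2 + 1) = 4 * 2 by norm_num, pow_mul, hζq]; norm_num
    have hζ0 : ζ' ≠ 0 := by
      rintro rfl
      rw [zero_pow (by norm_num)] at hζq
      exact one_ne_zero (neg_eq_zero.mp hζq.symm)
    have hd := ZMod.orderOf_dvd_card_sub_one hζ0
    rw [hord] at hd
    have := hqp.two_le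
    omega

end Pool.QRC
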