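import Pool.Agent.H70.QR.Inf2

set_option autoImplicit false
set_option linter.unusedSectionVars false

/-!
# Infinitely many primes of the family: the seed field inside `ℚ_[89]`
-/

open NumberField Polynomial

namespace Pool.QRC

/-- A number field inside `ℚ_[p]` has a prime ideal of norm `p`. -/
lemma ideal_of_padic {p : ℕ} [Fact p.Prime] {E : Type*} [Field E] [NumberField E]
    (ι : E →+* ℚ_[p]) :
    ∃ P : Ideal (𝓞 E), P.IsMaximal ∧ P.absNorm = p ∧ ∀ D : ℕ, ((D : ℕ) : 𝓞 E) ∈ P → p ∣ D := by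
  have hint : ∀ x : 𝓞 E, ∃ y : ℤ_[p], (y : ℚ_[p]) = ι (x : E) := by
    intro x
    have h1 : IsIntegral ℤ (ι (x : E)) := by
      have h2 : IsIntegral ℤ (x : E) := x.2
      exact h2.map (ι.toIntAlgHom)
    have h3 : IsIntegral ℤ_[p] (ι (x : E)) := h1.tower_top
    obtain ⟨y, hy⟩ := IsIntegrallyClosed.isIntegral_iff.mp h3
    exact ⟨y, hy⟩
  choose φ hφ using hint
  have hinj : Function.Injective (fun y : ℤ_[p] => (y : ℚ_[p])) := Subtype.coe_injective
  let Φ : 𝓞 E →+* ℤ_[p] :=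
    { toFun := φ
      map_one' := by
        apply hinj
        change ((φ 1 : ℤ_[p]) : ℚ_[p]) = ((1 : ℤ_[p]) : ℚ_[p])
        rw [hφ]
        simp
      map_mul' := by
        intro x y
        apply hinj
        change ((φ (x * y) : ℤ_[p]) : ℚ_[p]) = ((φ x * φ y : ℤ_[p]) : ℚ_[p])
        rw [PadicInt.coe_mul, hφ, hφ, hφ]
        simp
      map_zero' := by
        apply hinj
        change ((φ 0 : ℤ_[p]) : ℚ_[p]) = ((0 : ℤ_[p]) : ℚ_[p])
        rw [hφ]
        simp
      map_add' := by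
        intro x y
        apply hinj
        change ((φ (x + y) : ℤ_[p]) : ℚ_[p]) = ((φ x + φ y : ℤ_[p]) : ℚ_[p])
        rw [PadicInt.coe_add, hφ, hφ, hφ]
        simp }
  let ψ : 𝓞 E →+* ZMod p := (PadicInt.toZMod).comp Φ
  have hsurj : Function.Surjective ψ := ZMod.ringHom_surjective ψ
  refine ⟨RingHom.ker ψ, RingHom.ker_isMaximal_of_surjective ψ hsurj, ?_, ?_⟩
  · have h1 : (RingHom.ker ψ).absNorm = Nat.card (𝓞 E ⧸ RingHom.ker ψ) := rfl
    rw [h1, Nat.card_congr (RingHom.quotientKerEquivOfSurjective hsurj).toEquiv,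
      Nat.card_eq_fintype_card, ZMod.card]
  · intro D hD
    rw [RingHom.mem_ker, map_natCast, ZMod.natCast_eq_zero_iff] at hD
    exact hD

instance fact89 : Fact (Nat.Prime 89) := ⟨by norm_num⟩

/-- the solution in the `89`-adic integers -/
lemma padic_solution : ∃ ζ e Z : ℤ_[89], ζ ^ 4 = -1 ∧ e ^ 4 = e ^ 2 + 1 ∧
    Z ^ 4 = 27 * (e ^ 2 + 2) := by
  obtain ⟨ζ, hζ, -⟩ := hensel1 (p := 89) (X ^ 4 + 1) 12
    (by
      rw [eval_add, eval_pow, eval_X, eval_one, map_add, map_pow, map_one, map_ofNat]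
      decide)
    (by
      simp only [derivative_add, derivative_one, add_zero, derivative_X_pow, eval_mul, eval_pow,
        eval_X, eval_natCast, map_mul, map_pow, map_natCast, map_ofNat]
      decide)
  obtain ⟨e, he, he1⟩ := hensel1 (p := 89) (X ^ 4 - X ^ 2 - 1) 13
    (by
      simp only [eval_sub, eval_pow, eval_X, eval_one, map_sub, map_pow, map_one, map_ofNat]
      decide)
    (by
      rw [derivative_sub, derivative_sub]
      simp only [derivative_one, sub_zero, derivative_X_pow, eval_mul, eval_pow,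
        eval_X, eval_natCast, map_mul, map_pow, map_natCast, map_ofNat, eval_sub, map_sub]
      decide)
  rw [map_ofNat] at he1
  obtain ⟨c, hc⟩ : ∃ c : ℤ_[89], c = 27 * (e ^ 2 + 2) := ⟨_, rfl⟩
  have hc1 : PadicInt.toZMod c = 27 * (13 ^ 2 + 2) := by
    rw [hc]
    simp only [map_pow, map_mul, map_add, map_ofNat, he1]
  obtain ⟨Z, hZ, -⟩ := hensel1 (p := 89) (X ^ 4 - C c) 4
    (by
      simp only [eval_sub, eval_pow, eval_X, eval_C, map_sub, map_pow, map_ofNat, hc1]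
      decide)
    (by
      rw [derivative_sub, derivative_C, sub_zero]
      simp only [derivative_X_pow, eval_mul, eval_pow,
        eval_X, eval_natCast, map_mul, map_pow, map_natCast, map_ofNat]
      decide)
  refine ⟨ζ, e, Z, ?_, ?_, ?_⟩
  · simp only [eval_add, eval_pow, eval_X, eval_one] at hζ
    linear_combination hζ
  · simp only [eval_sub, eval_pow, eval_X, eval_one] at he
    linear_combination he
  · simp only [eval_sub, eval_pow, eval_X, eval_C] at hZ
    linear_combination hZ + hc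

lemma lift_eq {E : Type*} [Field E] {x y : 𝓞 E}
    (h : (algebraMap (𝓞 E) E x) ^ 4 = 27 * ((algebraMap (𝓞 E) E y) ^ 2 + 2)) :
    x ^ 4 = 27 * (y ^ 2 + 2) := by
  apply FaithfulSMul.algebraMap_injective (𝓞 E) E
  rw [map_pow, h, map_mul, map_ofNat, map_add, map_ofNat, map_pow]

/-- the number field -/
lemma seed_field : ∃ (E : Type) (_ : Field E) (_ : NumberField E) (_ : E →+* ℚ_[89])
    (ζ e Z : 𝓞 E), ζ ^ 4 = -1 ∧ e ^ 4 = e ^ 2 + 1 ∧ Z ^ 4 = 27 * (e ^ 2 + 2) := by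
  obtain ⟨ζ, e, Z, hζ, he, hZ⟩ := padic_solution
  have hζ' : (ζ : ℚ_[89]) ^ 4 = -1 := by exact_mod_cast congrArg (fun t : ℤ_[89] => (t : ℚ_[89])) hζ
  have he' : (e : ℚ_[89]) ^ 4 = (e : ℚ_[89]) ^ 2 + 1 := by
    exact_mod_cast congrArg (fun t : ℤ_[89] => (t : ℚ_[89])) he
  have hZ' : (Z : ℚ_[89]) ^ 4 = 27 * ((e : ℚ_[89]) ^ 2 + 2) := by
    exact_mod_cast congrArg (fun t : ℤ_[89] => (t : ℚ_[89])) hZ
  -- integrality
  have iζ : IsIntegral ℤ (ζ : ℚ_[89]) := by
    refine ⟨X ^ 4 + 1, by monicity!, ?_⟩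
    simp [eval₂_add, hζ']
  have ie : IsIntegral ℤ (e : ℚ_[89]) := by
    refine ⟨X ^ 4 - X ^ 2 - 1, by monicity!, ?_⟩
    simp [eval₂_sub, he']
  have iZ : IsIntegral ℤ (Z : ℚ_[89]) := by
    have h1 : IsIntegral ℤ ((Z : ℚ_[89]) ^ 4) := by
      rw [hZ']
      have h27 : IsIntegral ℤ (27 : ℚ_[89]) := by
        have := isIntegral_algebraMap (R := ℤ) (A := ℚ_[89]) (x := 27)
        simpa using this
      have h2 : IsIntegral ℤ (2 : ℚ_[89]) := by
        have := isIntegral_algebraMap (R := ℤ) (A := ℚ_[89]) (x := 2)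
        simpa using this
      exact h27.mul ((ie.pow 2).add h2)
    exact h1.of_pow (by norm_num)
  let S : Set ℚ_[89] := {(ζ : ℚ_[89]), (e : ℚ_[89]), (Z : ℚ_[89])}
  let E := IntermediateField.adjoin ℚ S
  have hfinS : Finite S := by
    have : S.Finite := Set.toFinite _
    exact this.to_subtype
  have hfd : FiniteDimensional ℚ E := by
    refine IntermediateField.finiteDimensional_adjoin ?_
    intro x hx
    rcases hx with rfl | rfl | rfl
    · exact iζ.tower_top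
    · exact ie.tower_top
    · exact iZ.tower_top
  have hnf : NumberField E := { to_charZero := inferInstance, to_finiteDimensional := hfd }
  have mζ : (ζ : ℚ_[89]) ∈ E := IntermediateField.subset_adjoin ℚ S (by simp [S])
  have me : (e : ℚ_[89]) ∈ E := IntermediateField.subset_adjoin ℚ S (by simp [S])
  have mZ : (Z : ℚ_[89]) ∈ E := IntermediateField.subset_adjoin ℚ S (by simp [S])
  have hinjE : Function.Injective (algebraMap E ℚ_[89]) := (algebraMap E ℚ_[89]).injective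
  have lift : ∀ (x : ℚ_[89]) (hx : x ∈ E), IsIntegral ℤ x → IsIntegral ℤ (⟨x, hx⟩ : E) := by
    intro x hx h
    exact (isIntegral_algebraMap_iff (A := E) (B := ℚ_[89]) hinjE).mp h
  refine ⟨E, inferInstance, hnf, algebraMap E ℚ_[89], ⟨⟨ζ, mζ⟩, lift _ _ iζ⟩,
    ⟨⟨e, me⟩, lift _ _ ie⟩, ⟨⟨Z, mZ⟩, lift _ _ iZ⟩, ?_, ?_, ?_⟩
  · apply RingOfIntegers.ext
    apply hinjE
    simpa using hζ'
  · apply RingOfIntegers.ext
    apply hinjE
    simpa using he'
  · apply lift_eq
    apply hinjE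
    rw [map_pow, map_mul, map_add, map_pow, map_ofNat, map_ofNat]
    exact hZ'

/-- The family is infinite. -/
theorem infinite_family (N : ℕ) : ∃ q : ℕ, N < q ∧ q.Prime ∧ q % 24 = 17 ∧
    ∃ e Z : ZMod q, e ^ 4 = e ^ 2 + 1 ∧ Z ^ 4 = 27 * (e ^ 2 + 2) := by
  classical
  obtain ⟨E, _, _, ι, ζ, e, Z, hζ, he, hZ⟩ := seed_field
  obtain ⟨P, hPm, hPN, hPD⟩ := ideal_of_padic ι
  set T : Finset ℕ := (Finset.range (N + 4)).filter (fun q => q.Prime ∧ q ≠ 89) with hT
  set D : ℕ := ∏ q ∈ T, q with hD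
  have h2D : 2 ∣ D := Finset.dvd_prod_of_mem (fun q => q)
    (by rw [hT, Finset.mem_filter, Finset.mem_range]; exact ⟨by omega, by norm_num, by norm_num⟩)
  have h3D : 3 ∣ D := Finset.dvd_prod_of_mem (fun q => q)
    (by rw [hT, Finset.mem_filter, Finset.mem_range]; exact ⟨by omega, by norm_num, by norm_num⟩)
  have h89D : ¬ 89 ∣ D := by
    intro h
    rw [hD, (Nat.prime_iff.mp (by norm_num : Nat.Prime 89)).dvd_finsetProd_iff] at h
    obtain ⟨q, hq, hdq⟩ := h
    rw [hT, Finset.mem_filter] at hq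
    exact hq.2.2 ((Nat.prime_dvd_prime_iff_eq (by norm_num) hq.2.1).mp hdq).symm
  have hI : ((ζ ^ 2 : 𝓞 E) : E) * ((ζ ^ 2 : 𝓞 E) : E) = -1 := by
    have : (ζ ^ 2 * ζ ^ 2 : 𝓞 E) = -1 := by rw [← pow_add]; exact hζ
    have h := congrArg (fun t : 𝓞 E => (t : E)) this
    simpa using h
  obtain ⟨Q, hQ, hQN, hDQ, h89Q⟩ := euclid hI (by norm_num : 89 % 3 = 2) P hPm hPN h3D
    (fun h => h89D (hPD D h))
  have h2Q : (2 : 𝓞 E) ∉ Q := by
    intro h
    apply hDQ
    obtain ⟨D', hD'⟩ := h2D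
    rw [hD']
    push_cast
    exact Q.mul_mem_right _ h
  obtain ⟨q, hq, hqQ, hq24, hfam⟩ := prime_of_ideal hζ he hZ hQ hQN h2Q
  refine ⟨q, ?_, hq, hq24, hfam⟩
  by_contra hle
  have hq89 : q ≠ 89 := by
    rintro rfl
    exact h89Q hqQ
  have hqD : q ∣ D := Finset.dvd_prod_of_mem (fun q => q)
    (by rw [hT, Finset.mem_filter, Finset.mem_range]; exact ⟨by omega, hq, hq89⟩)
  apply hDQ
  obtain ⟨D', hD'⟩ := hqD
  rw [hD']
  push_cast
  exact Q.mul_mem_right _ hqQ

end Pool.QRC
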