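import Pool.Agent.H70.QR.Exi

set_option autoImplicit false
set_option linter.unusedSectionVars false

/-!
# Existence of elements of `PSL₂(p)` with two cycles of length `(p+1)/2`
-/

open Polynomial OnePoint

namespace Pool.QRC

/-- the map `x ↦ -1 / (x + t)` -/
def mf {p : ℕ} [Fact p.Prime] (t : ZMod p) (x : P1 p) : P1 p :=
  Option.elim (x : Option (ZMod p)) ((0 : ZMod p) : P1 p)
    (fun i => if i + t = 0 then ∞ else ((-1 / (i + t) : ZMod p) : P1 p))

/-- its inverse -/
def mg {p : ℕ} [Fact p.Prime] (t : ZMod p) (x : P1 p) : P1 p :=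
  Option.elim (x : Option (ZMod p)) ((-t : ZMod p) : P1 p)
    (fun i => if i = 0 then ∞ else ((-1 / i - t : ZMod p) : P1 p))

section

variable {p : ℕ} [Fact p.Prime]

lemma mf_inf (t : ZMod p) : mf t ∞ = ((0 : ZMod p) : P1 p) := rfl
lemma mf_coe (t i : ZMod p) :
    mf t (i : P1 p) = if i + t = 0 then ∞ else ((-1 / (i + t) : ZMod p) : P1 p) := rfl
lemma mg_inf (t : ZMod p) : mg t ∞ = ((-t : ZMod p) : P1 p) := rfl
lemma mg_coe (t i : ZMod p) :
    mg t (i : P1 p) = if i = 0 then ∞ else ((-1 / i - t : ZMod p) : P1 p) := rfl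

/-- the permutation `x ↦ -1 / (x + t)` -/
def mp (t : ZMod p) : Equiv.Perm (P1 p) where
  toFun := mf t
  invFun := mg t
  left_inv := by
    intro x
    induction x using OnePoint.rec with
    | infty => rw [mf_inf, mg_coe, if_pos rfl]
    | coe i =>
      rw [mf_coe]
      by_cases h : i + t = 0
      · rw [if_pos h, mg_inf]
        congr 1
        linear_combination -h
      · rw [if_neg h, mg_coe, if_neg (div_ne_zero (neg_ne_zero.mpr one_ne_zero) h)]
        congr 1
        field_simp
        ring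
  right_inv := by
    intro x
    induction x using OnePoint.rec with
    | infty => rw [mg_inf, mf_coe, if_pos (neg_add_cancel t)]
    | coe i =>
      rw [mg_coe]
      by_cases h : i = 0
      · rw [if_pos h, mf_inf, h]
      · have e : -1 / i - t + t = -1 / i := by ring
        rw [if_neg h, mf_coe, e, if_neg (div_ne_zero (neg_ne_zero.mpr one_ne_zero) h)]
        congr 1
        field_simp

lemma mp_inf (t : ZMod p) : mp t ∞ = ((0 : ZMod p) : P1 p) := rfl
lemma mp_coe (t i : ZMod p) :
    mp t (i : P1 p) = if i + t = 0 then ∞ else ((-1 / (i + t) : ZMod p) : P1 p) := rfl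

lemma mp_psl (t : ZMod p) : InPSL p (mp t) := by
  refine ⟨0, -1, 1, t, by simp, ⟨1, by simp⟩, ?_, ?_⟩
  · rw [mp_inf, if_neg one_ne_zero]
    simp
  · intro i
    rw [mp_coe, one_mul, zero_mul, zero_add]

end

/-- For every prime `p ≡ 1 mod 4`, elements of `PSL₂(p)` with two cycles of length `(p+1)/2`
exist. -/
theorem exists_perm {p : ℕ} [Fact p.Prime] (hp : p % 4 = 1) {k : ℕ} [NeZero k]
    (hk : 2 * k = p + 1) :
    ∃ (π : Equiv.Perm (P1 p)) (l r : Fin k → P1 p), InPSL p π ∧ IsTwoCycles π l r := by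
  classical
  have hp2 : p % 2 = 1 := by omega
  have hpp := (Fact.out : p.Prime).two_le
  have hk0 : 0 < k := by omega
  have : Fintype (GaloisField p 2) := Fintype.ofFinite _
  obtain ⟨K, _, _, _, hK⟩ : ∃ (K : Type) (_ : Field K) (_ : Fintype K) (_ : Algebra (ZMod p) K),
      Fintype.card K = p ^ 2 := by
    refine ⟨GaloisField p 2, inferInstance, inferInstance, inferInstance, ?_⟩
    rw [Fintype.card_eq_nat_card]
    exact GaloisField.card p 2 (by norm_num)
  have hinv : ∀ x : K, (x ^ p) ^ p = x := invol hK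
  have h2 : (2 : K) ≠ 0 := two_ne hp2
  -- a primitive `k`-th root of unity
  obtain ⟨z, hz⟩ : ∃ z : K, IsPrimitiveRoot z k := by
    obtain ⟨g, hg⟩ := IsCyclic.exists_generator (α := Kˣ)
    have hord : orderOf g = p ^ 2 - 1 := by
      rw [orderOf_eq_card_of_forall_mem_zpowers hg, Nat.card_eq_fintype_card, Fintype.card_units,
        hK]
    obtain ⟨q, hq⟩ : ∃ q, p = 2 * q + 1 := ⟨p / 2, by omega⟩
    have hkq : k = q + 1 := by omega
    have hfac : p ^ 2 - 1 = (4 * q) * k := by
      rw [hq, hkq]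
      have : (2 * q + 1) ^ 2 = 4 * q * (q + 1) + 1 := by ring
      rw [this, Nat.add_sub_cancel]
    have hq0 : 4 * q ≠ 0 := by omega
    refine ⟨((g ^ (4 * q) : Kˣ) : K), ?_⟩
    rw [IsPrimitiveRoot.coe_units_iff]
    have h3 : IsPrimitiveRoot g (p ^ 2 - 1) := by
      rw [← hord]; exact IsPrimitiveRoot.orderOf g
    refine h3.pow ?_ hfac
    rw [hfac]
    exact Nat.mul_pos (Nat.pos_of_ne_zero hq0) hk0
  have hzk : z ^ k = 1 := hz.pow_eq_one
  have hz0 : z ≠ 0 := by
    rintro rfl
    rw [zero_pow hk0.ne'] at hzk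
    exact zero_ne_one hzk
  have hnorm : ∀ s : ℕ, (z ^ s) ^ p * z ^ s = 1 := by
    intro s
    rw [← pow_succ, ← pow_mul, mul_comm, pow_mul, ← hk, mul_comm 2 k, pow_mul, hzk, one_pow,
      one_pow]
  have hzp : z ^ p * z = 1 := by simpa using hnorm 1
  have hfixz : ∀ s : ℕ, (z ^ s) ^ p = z ^ s → k ∣ s := by
    intro s hs
    have h1 := hnorm s
    rw [hs, ← pow_add] at h1
    have h3 := hz.dvd_of_pow_eq_one _ h1
    rw [← two_mul] at h3
    exact Nat.Coprime.dvd_of_dvd_mul_left
      (Nat.coprime_two_right.mpr (Nat.odd_iff.mpr (by omega))) h3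
  have hβ : z ^ p ≠ z := by
    intro h
    have h1 := hfixz 1 (by rw [pow_one]; exact h)
    have h3 := Nat.le_of_dvd one_pos h1
    omega
  -- the trace
  obtain ⟨t, ht⟩ : ∃ t : ZMod p, algebraMap (ZMod p) K t = z + z ^ p := by
    refine fix_iff (p := p) ?_
    rw [frob_add, hinv, add_comm]
  have heig : ∀ x : P1 p, ∃ s : K, s ^ p = s ∧ s ≠ 0 ∧ Ph z (mp t x) = s * (z * Ph z x) := by
    intro x
    induction x using OnePoint.rec with
    | infty =>
      refine ⟨1, one_pow _, one_ne_zero, ?_⟩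
      rw [mp_inf, Ph_coe, Ph_inf, map_zero]
      ring
    | coe x =>
      rw [mp_coe]
      by_cases hx : x + t = 0
      · refine ⟨-1, Odd.neg_one_pow (Nat.odd_iff.mpr hp2), neg_ne_zero.mpr one_ne_zero, ?_⟩
        rw [if_pos hx, Ph_inf, Ph_coe]
        have h1 : algebraMap (ZMod p) K x + (z + z ^ p) = 0 := by
          rw [← ht, ← map_add, hx, map_zero]
        linear_combination (-1 : K) * hzp + z * h1
      · have hne : algebraMap (ZMod p) K (x + t) ≠ 0 := by rw [Ne, map_eq_zero]; exact hx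
        refine ⟨algebraMap (ZMod p) K (1 / (x + t)), fix_algebraMap _, ?_, ?_⟩
        · rw [Ne, map_eq_zero]; exact div_ne_zero one_ne_zero hx
        · rw [if_neg hx, Ph_coe, Ph_coe, map_div₀, map_div₀, map_neg, map_one]
          have h1 : algebraMap (ZMod p) K (x + t) = algebraMap (ZMod p) K x + (z + z ^ p) := by
            rw [map_add, ht]
          generalize algebraMap (ZMod p) K (x + t) = D at hne h1
          field_simp
          rw [h1]
          linear_combination hzp
  -- periods
  have hper : ∀ (s : ℕ) (x : P1 p), (mp t : P1 p → P1 p)^[s] x = x ↔ k ∣ s := by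
    intro s x
    obtain ⟨c, hc, hc0, h1⟩ := iter_eigen heig s x
    constructor
    · intro h
      rw [h] at h1
      have hP := Ph_ne hβ x
      have h3 : c * z ^ s = 1 := by
        refine mul_right_cancel₀ hP ?_
        rw [one_mul, mul_assoc, ← h1]
      apply hfixz
      have h4 : (c * z ^ s) ^ p = 1 := by rw [h3, one_pow]
      rw [mul_pow, hc] at h4
      refine mul_left_cancel₀ hc0 ?_
      rw [h4, h3]
    · rintro ⟨d, rfl⟩
      rw [pow_mul, hzk, one_pow, one_mul] at h1
      exact Ph_inj hβ hc h1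
  have hinj : Function.Injective (mp t : P1 p → P1 p) := (mp t).injective
  have hmod : ∀ (s : ℕ) (x : P1 p), (mp t : P1 p → P1 p)^[s] x =
      (mp t : P1 p → P1 p)^[s % k] x := by
    intro s x
    conv_lhs => rw [← Nat.mod_add_div s k, Function.iterate_add_apply,
      (hper (k * (s / k)) x).mpr ⟨_, rfl⟩]
  have hcinj : ∀ x : P1 p, Function.Injective
      (fun i : Fin k => (mp t : P1 p → P1 p)^[i.val] x) := by
    intro x i j hij
    wlog hle : i.val ≤ j.val generalizing i j with H
    · exact (H hij.symm (by omega)).symm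
    simp only at hij
    have e : j.val = i.val + (j.val - i.val) := by omega
    rw [e, Function.iterate_add_apply] at hij
    have h3 := (hinj.iterate i.val) hij
    have h4 := (hper _ x).mp h3.symm
    have h5 : j.val - i.val = 0 := by
      by_contra h6
      have := Nat.le_of_dvd (by omega) h4
      have := j.isLt
      omega
    exact Fin.ext (by omega)
  have hcyc : ∀ (x : P1 p) (i : Fin k), mp t ((mp t : P1 p → P1 p)^[i.val] x) =
      (mp t : P1 p → P1 p)^[(i + 1).val] x := by
    intro x i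
    rw [← Function.iterate_succ_apply' (mp t : P1 p → P1 p) i.val x, hmod (i.val.succ) x]
    congr 1
    have e : (i + 1 : Fin k).val = (i.val + 1) % k := by
      rw [Fin.val_add, Fin.val_one', Nat.add_mod_mod]
    rw [e]
  -- a point outside of the first cycle
  obtain ⟨x0, hx0⟩ : ∃ x0 : P1 p, ∀ i : Fin k, (mp t : P1 p → P1 p)^[i.val] ∞ ≠ x0 := by
    by_contra hcon
    push Not at hcon
    have hsurj : Function.Surjective (fun i : Fin k => (mp t : P1 p → P1 p)^[i.val] ∞) :=
      fun x => hcon x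
    have h3 := Fintype.card_le_of_surjective _ hsurj
    have h4 : Fintype.card (P1 p) = Fintype.card (ZMod p) + 1 := Fintype.card_option
    rw [h4, ZMod.card, Fintype.card_fin] at h3
    omega
  refine ⟨mp t, fun i => (mp t : P1 p → P1 p)^[i.val] ∞,
    fun i => (mp t : P1 p → P1 p)^[i.val] x0, mp_psl t, ?_⟩
  refine ⟨hk, hcinj ∞, hcinj x0, ?_, hcyc ∞, hcyc x0⟩
  intro i j hij
  replace hij : (mp t : P1 p → P1 p)^[i.val] ∞ = (mp t : P1 p → P1 p)^[j.val] x0 := hij
  have h3 : (mp t : P1 p → P1 p)^[k - j.val] ((mp t : P1 p → P1 p)^[i.val] ∞) = x0 := by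
    rw [hij, ← Function.iterate_add_apply, Nat.sub_add_cancel j.isLt.le]
    exact (hper k x0).mpr dvd_rfl
  rw [← Function.iterate_add_apply, hmod] at h3
  exact hx0 ⟨(k - j.val + i.val) % k, Nat.mod_lt _ hk0⟩ h3

end Pool.QRC
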