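import Pool.Agent.H70.QR.Exi
import Pool.Agent.H70.QR.Code

set_option autoImplicit false
set_option linter.unusedSectionVars false

/-!
# Singularity of a block from the class criterion
-/

open Polynomial OnePoint

namespace Pool.QRC

section

variable {K : Type*} [Field K]

/-- the product over a residue class of exponents -/
lemma prod_class {p k m n : ℕ} {ρ z : K} (T : Tor p k ρ z) (hmn : m * n = k) {M : Type*}
    [CommMonoid M] (f : K → M) (s j c : ℕ) (hj : (j + s) % m = c) :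
    ∏ i ∈ Finset.univ.filter (fun i : Fin k => (i.val + s) % m = c), f (z ^ i.val) =
      ∏ ξ ∈ nthRootsFinset n (1 : K), f (ξ * z ^ j) := by
  have hn0 : 0 < n := by have := T.n_odd hmn; omega
  have hk0 := T.k_pos
  have hm0 : 0 < m := by
    rcases Nat.eq_zero_or_pos m with h | h
    · rw [h, zero_mul] at hmn; omega
    · exact h
  have hord : orderOf z = k := T.hz.eq_orderOf.symm
  have hmod : ∀ a b : ℕ, z ^ (a * n) = z ^ (b * n) ↔ a ≡ b [MOD m] := by
    intro a b
    have h0 : ∀ A : ℕ, z ^ A = z ^ (A % k) := by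
      intro A
      rw [← hord, pow_mod_orderOf]
    constructor
    · intro h
      rw [h0 (a * n), h0 (b * n)] at h
      have h2 : a * n ≡ b * n [MOD k] := T.hz.pow_inj (Nat.mod_lt _ hk0) (Nat.mod_lt _ hk0) h
      rw [← hmn] at h2
      exact Nat.ModEq.mul_right_cancel' hn0.ne' h2
    · intro h
      have h2 : a * n ≡ b * n [MOD k] := by
        rw [← hmn]
        exact Nat.ModEq.mul_right' n h
      unfold Nat.ModEq at h2
      rw [h0 (a * n), h0 (b * n), h2]
  refine Finset.prod_bij (fun i _ => z ^ i.val / z ^ j) ?_ ?_ ?_ ?_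
  · intro i hi
    rw [Finset.mem_filter] at hi
    rw [mem_nthRootsFinset hn0, div_pow, ← pow_mul, ← pow_mul,
      div_eq_one_iff_eq (T.z0 _), hmod]
    have : i.val + s ≡ j + s [MOD m] := by
      unfold Nat.ModEq; rw [hi.2, hj]
    exact Nat.ModEq.add_right_cancel' s this
  · intro i hi i' hi' h
    have h1 : z ^ i.val = z ^ i'.val := by
      have h2 := congrArg (fun t => t * z ^ j) h
      simp only [div_mul_cancel₀ _ (T.z0 j)] at h2
      exact h2
    exact Fin.ext (T.hz.pow_inj i.isLt i'.isLt h1)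
  · intro ξ hξ
    rw [mem_nthRootsFinset hn0] at hξ
    have h1 : (ξ * z ^ j) ^ k = 1 := by
      rw [mul_pow, ← hmn, mul_comm m n, pow_mul, hξ, one_pow, one_mul, mul_comm n m, hmn,
        ← pow_mul, mul_comm, pow_mul, T.hz.pow_eq_one, one_pow]
    have : NeZero k := ⟨hk0.ne'⟩
    obtain ⟨t, ht, ht2⟩ := T.hz.eq_pow_of_pow_eq_one h1
    refine ⟨⟨t, ht⟩, ?_, ?_⟩
    · rw [Finset.mem_filter]
      refine ⟨Finset.mem_univ _, ?_⟩
      have h2 : z ^ (t * n) = z ^ (j * n) := by
        rw [pow_mul, ht2, mul_pow, hξ, one_mul, ← pow_mul]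
      rw [hmod] at h2
      have h3 := Nat.ModEq.add_right s h2
      unfold Nat.ModEq at h3
      simp only
      rw [h3, hj]
    · simp only
      rw [ht2, mul_div_cancel_right₀ _ (T.z0 j)]
  · intro i hi
    rw [div_mul_cancel₀ _ (T.z0 j)]

/-- the index set -/
def Idx (k m s : ℕ) : Finset (Fin k) :=
  Finset.univ.filter (fun i : Fin k => (i.val + s) % m = 0 ∨ (i.val + s) % m = 1)

lemma prod_idx {p k m n : ℕ} {ρ z : K} (T : Tor p k ρ z) (hmn : m * n = k) (hm : 2 ≤ m)
    {M : Type*} [CommMonoid M] (f : K → M) (s : ℕ) :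
    ∃ j : ℕ, ∏ i ∈ Idx k m s, f (z ^ i.val) =
      (∏ ξ ∈ nthRootsFinset n (1 : K), f (ξ * z ^ j)) *
        ∏ ξ ∈ nthRootsFinset n (1 : K), f (ξ * z ^ (j + 1)) := by
  classical
  refine ⟨(m - 1) * s, ?_⟩
  have e : (m - 1) * s + s = m * s := by
    obtain ⟨m', rfl⟩ : ∃ m', m = m' + 1 := ⟨m - 1, by omega⟩
    rw [Nat.add_sub_cancel]; ring
  have h0 : ((m - 1) * s + s) % m = 0 := by rw [e]; exact Nat.mul_mod_right m s
  have h1 : ((m - 1) * s + 1 + s) % m = 1 := by
    rw [show (m - 1) * s + 1 + s = m * s + 1 by omega, Nat.mul_add_mod, Nat.mod_eq_of_lt hm]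
  rw [← prod_class T hmn f s _ 0 h0, ← prod_class T hmn f s _ 1 h1]
  unfold Idx
  rw [Finset.filter_or, Finset.prod_union]
  rw [Finset.disjoint_filter]
  intro i _ h2 h3
  omega

end

/-- sign character of `ZMod 2` -/
def sg (K : Type*) [Field K] (a : ZMod 2) : K := if a = 0 then 1 else -1

lemma sg_add {K : Type*} [Field K] (a b : ZMod 2) : sg K (a + b) = sg K a * sg K b := by
  have key : ∀ a b : ZMod 2, a + b = 0 ↔ (a = 0 ↔ b = 0) := by decide
  unfold sg
  by_cases ha : a = 0 <;> by_cases hb : b = 0 <;> simp [ha, hb, key a b]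

lemma sg_sum {K : Type*} [Field K] {ι : Type*} (I : Finset ι) (g : ι → ZMod 2) :
    sg K (∑ i ∈ I, g i) = ∏ i ∈ I, sg K (g i) := by
  classical
  induction I using Finset.induction_on with
  | empty => simp [sg]
  | insert a I ha ih => rw [Finset.sum_insert ha, Finset.prod_insert ha, sg_add, ih]

lemma sg_one {K : Type*} [Field K] (h2 : (2 : K) ≠ 0) {a : ZMod 2} (h : sg K a = 1) : a = 0 := by
  unfold sg at h
  by_contra ha
  rw [if_neg ha] at h
  apply h2
  linear_combination -h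

section

variable {p : ℕ} [Fact p.Prime] {K : Type*} [Field K] [Fintype K] [Algebra (ZMod p) K]

lemma Lg_alg (hp : p % 2 = 1) (a : ZMod p) :
    Lg p (algebraMap (ZMod p) K a) = ((quadraticChar (ZMod p) a : ℤ) : K) := by
  have hr : ringChar (ZMod p) ≠ 2 := by
    rw [ZMod.ringChar_zmod_n]
    rintro rfl
    omega
  have h := quadraticChar_eq_pow_of_char_ne_two' hr a
  rw [ZMod.card] at h
  unfold Lg
  rw [← map_pow, ← h, map_intCast]

/-- the local comparison -/
lemma factor (hp : p % 8 = 1) {β : K} (hβ : β ^ p ≠ β) {ε : ℤ}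
    (hε : ε = 1 ∨ ε = -1) (b : ZMod p) (x : P1 p) {u s : K} (hs : s ^ p = s) (hs0 : s ≠ 0)
    (hx : Ph β x = s * u) :
    sg K (loc p ε b x) = -(ε : K) * (tt p (β ^ p - β) (ε : K) u (Ph β (b : P1 p)) *
      tt p (β ^ p - β) (ε : K) u 1) := by
  have hb : β ^ p - β ≠ 0 := sub_ne_zero.mpr hβ
  have hp2 : p % 2 = 1 := by omega
  have hp4 : p % 4 = 1 := by omega
  have hε2 : (ε : K) * (ε : K) = 1 := by
    rcases hε with h | h <;> rw [h] <;> norm_num
  have hu : u = s⁻¹ * Ph β x := by rw [hx, inv_mul_cancel_left₀ hs0]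
  have hu0 : u ≠ 0 := by rw [hu]; exact mul_ne_zero (inv_ne_zero hs0) (Ph_ne hβ x)
  have hsi : (s⁻¹) ^ p = s⁻¹ := by rw [inv_pow, hs]
  have hLs : Lg p s * Lg p (s⁻¹) = 1 := by
    rw [← Lg_mul, mul_inv_cancel₀ hs0, Lg_one]
  have hLs2 : Lg p (s⁻¹) * Lg p (s⁻¹) = 1 := by
    rw [← sq]; exact Lg_sq_fix hp2 (inv_ne_zero hs0) hsi
  induction x using OnePoint.rec with
  | infty =>
    rw [Ph_inf, mul_one] at hu
    have h1 : Bf p (β ^ p - β) u 1 = 0 := by
      unfold Bf; rw [hu, hsi]; simp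
    have h2 : Bf p (β ^ p - β) u (Ph β (b : P1 p)) = s⁻¹ := by
      unfold Bf
      rw [hu, hsi, Ph_coe, frob_add, fix_algebraMap, div_eq_iff hb]
      ring
    unfold tt
    rw [if_pos h1, if_neg (by rw [h2]; exact inv_ne_zero hs0), h2, loc_inf, hu, one_div, inv_inv]
    simp only [sg, if_true]
    linear_combination (-1 : K) * hε2 - (ε : K) * (ε : K) * hLs
  | coe x =>
    rw [Ph_coe] at hu
    have h1 : Bf p (β ^ p - β) u 1 = -s⁻¹ := by
      unfold Bf
      rw [hu, mul_pow, hsi, frob_add, fix_algebraMap, div_eq_iff hb]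
      ring
    have h1' : Bf p (β ^ p - β) u 1 ≠ 0 := by rw [h1]; exact neg_ne_zero.mpr (inv_ne_zero hs0)
    have h2 : Bf p (β ^ p - β) u (Ph β (b : P1 p)) = s⁻¹ * algebraMap (ZMod p) K (x - b) := by
      unfold Bf
      rw [hu, mul_pow, hsi, Ph_coe, frob_add, frob_add, fix_algebraMap, fix_algebraMap,
        div_eq_iff hb, map_sub]
      ring
    unfold tt
    rw [if_neg h1', h1, Lg_neg hp4, loc_coe]
    by_cases hxb : x = b
    · have h3 : Bf p (β ^ p - β) u (Ph β (b : P1 p)) = 0 := by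
        rw [h2, hxb, sub_self, map_zero, mul_zero]
      rw [if_pos h3]
      have h4 : Ph β (b : P1 p) / u = s := by
        rw [← hxb, hx, mul_div_cancel_right₀ _ hu0]
      rw [h4, hxb, sub_self]
      have h5 : ind p ε 0 = 0 := by
        unfold ind
        rw [MulChar.map_zero, if_neg]
        rcases hε with h | h <;> rw [h] <;> norm_num
      rw [h5]
      simp only [sg, if_true]
      linear_combination (-1 : K) * hε2 - (ε : K) * (ε : K) * hLs
    · have hd : x - b ≠ 0 := sub_ne_zero.mpr hxb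
      have h3 : Bf p (β ^ p - β) u (Ph β (b : P1 p)) ≠ 0 := by
        rw [h2]
        exact mul_ne_zero (inv_ne_zero hs0) (by rw [Ne, map_eq_zero]; exact hd)
      rw [if_neg h3, h2, Lg_mul, Lg_alg hp2]
      have h6 : sg K (ind p ε (x - b)) = -(ε : K) * ((quadraticChar (ZMod p) (x - b) : ℤ) : K) := by
        unfold ind
        rcases quadraticChar_dichotomy hd with h7 | h7 <;> rcases hε with h | h <;>
          rw [h7, h] <;> simp [sg]
      rw [h6]
      linear_combination ((ε : K) * ((quadraticChar (ZMod p) (x - b) : ℤ) : K)) * hLs2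

/-- orthogonality of the class words to the code -/
lemma orth (hp : p % 8 = 1) {k m n : ℕ} [NeZero k]
    {l r : Fin k → P1 p} {β z τ : K} (O : Orb l r β z) (hmn : m * n = k) (hm : 2 ≤ m)
    (C : Cnd p m n z τ) {ε : ℤ} (hε : ε = 1 ∨ ε = -1)
    (hcrit : -(ε : K) * Lg p (n : K) * Lg p (β ^ p - β) = Lg p ((Ph β (l 0)) ^ p * Ph β (l 0)) * τ)
    (s : ℕ) : (((Idx k m s).card : ℕ) : ZMod 2) = 0 ∧
      ∀ b : ZMod p, ∑ i ∈ Idx k m s, loc p ε b (l i) = 0 := by
  have hε2 : (ε : K) * (ε : K) = 1 := by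
    rcases hε with h | h <;> rw [h] <;> norm_num
  have hcard : (((Idx k m s).card : ℕ) : ZMod 2) = 0 := by
    obtain ⟨j, hj⟩ := prod_idx O.T hmn hm (fun _ => (-1 : K)) s
    simp only [Finset.prod_const] at hj
    rw [← pow_add, (O.T.prim hmn).card_nthRootsFinset, ← two_mul, pow_mul] at hj
    norm_num at hj
    have h2 : (-1 : K) ≠ 1 := by
      intro h
      apply O.T.two
      linear_combination -h
    rcases Nat.even_or_odd (Idx k m s).card with h | h
    · obtain ⟨t, ht⟩ := h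
      rw [ht]
      push_cast
      exact CharTwo.add_self_eq_zero _
    · rw [h.neg_one_pow] at hj
      exact absurd hj h2
  refine ⟨hcard, fun b => ?_⟩
  apply sg_one (K := K) O.T.two
  rw [sg_sum]
  have hy0 : Ph β (l 0) ≠ 0 := Ph_ne O.hβ _
  have h1 : ∀ i ∈ Idx k m s, sg K (loc p ε b (l i)) = -(ε : K) *
      (tt p (β ^ p - β) (ε : K) (z ^ i.val * Ph β (l 0)) (Ph β (b : P1 p)) *
        tt p (β ^ p - β) (ε : K) (z ^ i.val * Ph β (l 0)) 1) := by
    intro i _
    obtain ⟨s', hs, hs0, hs1⟩ := O.hl i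
    exact factor hp O.hβ hε b (l i) hs hs0 hs1
  rw [Finset.prod_congr rfl h1, Finset.prod_mul_distrib, Finset.prod_mul_distrib]
  -- the constant factor
  have hc1 : ∏ i ∈ Idx k m s, (-(ε : K)) = 1 := by
    obtain ⟨j, hj⟩ := prod_idx O.T hmn hm (fun _ => (-(ε : K))) s
    rw [hj]
    simp only [Finset.prod_const]
    rw [← mul_pow, neg_mul_neg, hε2, one_pow]
  -- the total products
  have htot : ∀ x : P1 p, ∏ i ∈ Idx k m s,
      tt p (β ^ p - β) (ε : K) (z ^ i.val * Ph β (l 0)) (Ph β x) = 1 := by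
    intro x
    obtain ⟨j, hj⟩ := prod_idx O.T hmn hm
      (fun g => tt p (β ^ p - β) (ε : K) (g * Ph β (l 0)) (Ph β x)) s
    rw [hj]
    have e : ∀ j : ℕ, ∏ ξ ∈ nthRootsFinset n (1 : K),
        tt p (β ^ p - β) (ε : K) (ξ * z ^ j * Ph β (l 0)) (Ph β x) =
        TT p n (β ^ p - β) (ε : K) (z ^ j * Ph β (l 0)) (Ph β x) := by
      intro j
      unfold TT
      exact Finset.prod_congr rfl fun ξ _ => by rw [mul_assoc]
    rw [e, e]
    rcases O.cov x with ⟨i, rfl⟩ | ⟨i, rfl⟩
    · obtain ⟨s', hs, hs0, hs1⟩ := O.hl i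
      rw [hs1]
      exact O.T.tot_own hmn C hy0 hcrit hs hs0 j i.val
    · obtain ⟨s', hs, hs0, hs1⟩ := O.hr i
      obtain ⟨s₂, a, h2, h20, h21⟩ := O.oth
      have e2 : Ph β (r i) = s' * s₂ * (z ^ (i.val + a) * ((β ^ p - β) * Ph β (l 0))) := by
        rw [hs1, h21, pow_add]; ring
      rw [e2]
      exact O.T.tot_other hmn C hy0 (by rw [mul_pow, hs, h2]) (mul_ne_zero hs0 h20) j _
  rw [hc1, htot (b : P1 p), one_mul, one_mul]
  exact htot ∞

/-- the action moves the labels -/
lemma act_iter {k : ℕ} [NeZero k] {π : Equiv.Perm (P1 p)} {l : Fin k → P1 p}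
    (h : ∀ i, π (l i) = l (i + 1)) (c : P1 p → ZMod 2) (j : ℕ) (i : Fin k) :
    ((act π)^[j] c) (l (i + Fin.ofNat k j)) = c (l i) := by
  induction j generalizing i with
  | zero =>
    have : (Fin.ofNat k 0 : Fin k) = 0 := by ext; simp
    rw [this, add_zero]; rfl
  | succ j ih =>
    rw [Function.iterate_succ_apply']
    have e : i + Fin.ofNat k (j + 1) = (i + Fin.ofNat k j) + 1 := by
      rw [add_assoc]
      congr 1
      ext
      simp [Fin.val_add]
    rw [e, ← h]
    unfold act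
    rw [Equiv.symm_apply_apply]
    exact ih i

/-- a block is singular when all class words are orthogonal to the codeword -/
lemma singular {k m : ℕ} [NeZero k] (hmk : m ∣ k) {π : Equiv.Perm (P1 p)}
    {l : Fin k → P1 p} (h : ∀ i, π (l i) = l (i + 1)) (c : P1 p → ZMod 2)
    (ho : ∀ s : ℕ, ∑ i ∈ Idx k m s, c (l i) = 0) : ¬ IsUnit (block π l c) := by
  classical
  intro hu
  set v : Fin k → ZMod 2 := fun i => if i.val % m = 0 ∨ i.val % m = 1 then 1 else 0 with hv
  have h1 : (block π l c).mulVec v = 0 := by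
    funext j
    have e1 : (block π l c).mulVec v j =
        ∑ i : Fin k, ((act π)^[(j : ℕ)] c) (l i) * v i := rfl
    rw [e1, ← Equiv.sum_comp (Equiv.addRight (Fin.ofNat k j.val))]
    rw [Pi.zero_apply, ← ho j.val]
    unfold Idx
    rw [Finset.sum_filter]
    refine Finset.sum_congr rfl fun i _ => ?_
    rw [Equiv.coe_addRight, act_iter h]
    have e2 : (i + Fin.ofNat k j.val : Fin k).val % m = (i.val + j.val) % m := by
      rw [Fin.val_add]
      simp only [Fin.val_ofNat]
      rw [Nat.mod_mod_of_dvd _ hmk, Nat.add_mod, Nat.mod_mod_of_dvd _ hmk, ← Nat.add_mod]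
    simp only [hv]
    rw [e2]
    split_ifs <;> simp
  obtain ⟨B, hB⟩ := hu.exists_left_inv
  have h2 : v = 0 := by
    have : (B * block π l c).mulVec v = v := by rw [hB, Matrix.one_mulVec]
    rw [← this, ← Matrix.mulVec_mulVec, h1, Matrix.mulVec_zero]
  have h3 := congrFun h2 0
  simp [hv] at h3

end

end Pool.QRC
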