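import Mathlib

set_option autoImplicit false
set_option linter.unusedSectionVars false

/-!
# Products of determinant forms over cosets of a group of roots of unity

`K` is a field of characteristic `p` in which `x ↦ x ^ p` is an involution. We write
`Bf p ρ u w = (u w^p - u^p w) / ρ` with `ρ ^ p = -ρ`, an alternating form with values in the
fixed field, and `Lg p x = x ^ (p / 2)`, which extends the Legendre symbol multiplicatively.
-/

open Polynomial

namespace Pool.QRC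

section prods

variable {K : Type*} [Field K]

lemma prod_mu {n : ℕ} (hn : n % 2 = 1) : ∏ ξ ∈ nthRootsFinset n (1 : K), ξ = 1 := by
  have hn0 : 0 < n := by omega
  set P := ∏ ξ ∈ nthRootsFinset n (1 : K), ξ with hP
  have h1 : P ^ n = 1 := by
    rw [hP, ← Finset.prod_pow]
    exact Finset.prod_eq_one fun ξ hξ => (mem_nthRootsFinset hn0 1).mp hξ
  have h2 : P = P⁻¹ := by
    conv_rhs => rw [hP, ← Finset.prod_inv_distrib]
    rw [hP]
    refine Finset.prod_nbij' (fun ξ => ξ⁻¹) (fun ξ => ξ⁻¹) ?_ ?_ ?_ ?_ ?_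
    · intro ξ hξ
      rw [mem_nthRootsFinset hn0] at hξ ⊢
      rw [inv_pow, hξ, inv_one]
    · intro ξ hξ
      rw [mem_nthRootsFinset hn0] at hξ ⊢
      rw [inv_pow, hξ, inv_one]
    · intro ξ _; exact inv_inv ξ
    · intro ξ _; exact inv_inv ξ
    · intro ξ _; exact (inv_inv ξ).symm
  have h0 : P ≠ 0 := by
    intro h
    rw [h, zero_pow (by omega)] at h1
    exact zero_ne_one h1
  have h3 : P ^ 2 = 1 := by
    rw [sq]
    nth_rewrite 2 [h2]
    exact mul_inv_cancel₀ h0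
  have h4 : n = 2 * (n / 2) + 1 := by omega
  rw [h4, pow_succ, pow_mul, h3, one_pow, one_mul] at h1
  exact h1

lemma bij_mu {n : ℕ} (hn : n % 2 = 1) {M : Type*} [CommMonoid M] (f : K → M) :
    ∏ ξ ∈ nthRootsFinset n (1 : K), f ((ξ⁻¹) ^ 2) = ∏ ξ ∈ nthRootsFinset n (1 : K), f ξ := by
  have hn0 : 0 < n := by omega
  refine Finset.prod_nbij' (fun ξ => (ξ⁻¹) ^ 2) (fun ξ => ξ ^ ((n - 1) / 2)) ?_ ?_ ?_ ?_ ?_
  · intro ξ hξ
    rw [mem_nthRootsFinset hn0] at hξ ⊢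
    rw [← pow_mul, mul_comm, pow_mul, inv_pow, hξ, inv_one, one_pow]
  · intro ξ hξ
    rw [mem_nthRootsFinset hn0] at hξ ⊢
    rw [← pow_mul, mul_comm, pow_mul, hξ, one_pow]
  · intro ξ hξ
    rw [mem_nthRootsFinset hn0] at hξ
    have h0 : ξ ≠ 0 := by
      intro h
      rw [h, zero_pow (by omega)] at hξ
      exact zero_ne_one hξ
    have h1 : ξ * ξ ^ (n - 1) = 1 := by
      rw [← pow_succ', show n - 1 + 1 = n by omega, hξ]
    change ((ξ⁻¹) ^ 2) ^ ((n - 1) / 2) = ξ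
    rw [← pow_mul, show 2 * ((n - 1) / 2) = n - 1 by omega, inv_pow]
    exact (eq_inv_of_mul_eq_one_left h1).symm
  · intro ξ hξ
    rw [mem_nthRootsFinset hn0] at hξ
    have h1 : ξ * ξ ^ (n - 1) = 1 := by
      rw [← pow_succ', show n - 1 + 1 = n by omega, hξ]
    change ((ξ ^ ((n - 1) / 2))⁻¹) ^ 2 = ξ
    rw [inv_pow, ← pow_mul, show (n - 1) / 2 * 2 = n - 1 by omega]
    exact (eq_inv_of_mul_eq_one_left h1).symm
  · intro ξ _; rfl

/-- the product formula over a coset -/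
lemma prod_coset {n : ℕ} (hn : n % 2 = 1) {ζ : K} (hζ : IsPrimitiveRoot ζ n) (x y : K) :
    ∏ ξ ∈ nthRootsFinset n (1 : K), (ξ * x - ξ⁻¹ * y) = x ^ n - y ^ n := by
  have hn0 : 0 < n := by omega
  rw [hζ.pow_sub_pow_eq_prod_sub_mul x y hn0, ← bij_mu hn (fun ξ => x - ξ * y)]
  have h1 : ∀ ξ ∈ nthRootsFinset n (1 : K), ξ * x - ξ⁻¹ * y = ξ * (x - (ξ⁻¹) ^ 2 * y) := by
    intro ξ hξ
    have h0 : ξ ≠ 0 := ne_zero_of_mem_nthRootsFinset one_ne_zero hξ
    field_simp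
  rw [Finset.prod_congr rfl h1, Finset.prod_mul_distrib, prod_mu hn, one_mul]

/-- the product over the non-trivial elements -/
lemma prod_triv [DecidableEq K] {n : ℕ} (hn : n % 2 = 1) {ζ : K} (hζ : IsPrimitiveRoot ζ n) :
    ∏ ξ ∈ (nthRootsFinset n (1 : K)).erase 1, (ξ - ξ⁻¹) = (n : K) := by
  have hn0 : 0 < n := by omega
  have h1m : (1 : K) ∈ nthRootsFinset n (1 : K) := one_mem_nthRootsFinset hn0
  have h1 : ∀ ξ ∈ (nthRootsFinset n (1 : K)).erase 1, ξ - ξ⁻¹ = ξ * (1 - (ξ⁻¹) ^ 2) := by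
    intro ξ hξ
    have h0 : ξ ≠ 0 := ne_zero_of_mem_nthRootsFinset one_ne_zero (Finset.mem_of_mem_erase hξ)
    field_simp
  rw [Finset.prod_congr rfl h1, Finset.prod_mul_distrib]
  have h2 : ∏ ξ ∈ (nthRootsFinset n (1 : K)).erase 1, ξ = 1 := by
    have := Finset.mul_prod_erase (nthRootsFinset n (1 : K)) (fun ξ => ξ) h1m
    rw [prod_mu hn, one_mul] at this
    exact this
  rw [h2, one_mul]
  -- replace the function by one which is `1` at `1`
  have h3 : ∏ ξ ∈ (nthRootsFinset n (1 : K)).erase 1, (1 - (ξ⁻¹) ^ 2) =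
      ∏ ξ ∈ nthRootsFinset n (1 : K), (fun t : K => if t = 1 then 1 else 1 - t) ((ξ⁻¹) ^ 2) := by
    rw [← Finset.mul_prod_erase (nthRootsFinset n (1 : K))
      (fun ξ => (fun t : K => if t = 1 then 1 else 1 - t) ((ξ⁻¹) ^ 2)) h1m]
    simp only [inv_one, one_pow, if_true, one_mul]
    refine Finset.prod_congr rfl fun ξ hξ => ?_
    rw [if_neg]
    intro h
    have hξ' := Finset.mem_of_mem_erase hξ
    rw [mem_nthRootsFinset hn0] at hξ'
    rw [inv_pow, inv_eq_one] at h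
    have h4 : n = 2 * (n / 2) + 1 := by omega
    rw [h4, pow_succ, pow_mul, h, one_pow, one_mul] at hξ'
    exact (Finset.ne_of_mem_erase hξ) hξ'
  rw [h3, bij_mu hn (fun t : K => if t = 1 then 1 else 1 - t),
    ← Finset.mul_prod_erase (nthRootsFinset n (1 : K))
      (fun t : K => if t = 1 then 1 else 1 - t) h1m]
  simp only [if_true, one_mul]
  obtain ⟨n', rfl⟩ : ∃ n', n = n' + 1 := ⟨n - 1, by omega⟩
  have h5 := hζ.prod_one_sub_pow_eq_order
  rw [Nat.cast_add_one, ← h5]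
  symm
  refine Finset.prod_bij (fun i _ => ζ ^ (i + 1)) ?_ ?_ ?_ ?_
  · intro i hi
    rw [Finset.mem_range] at hi
    rw [Finset.mem_erase, mem_nthRootsFinset hn0]
    refine ⟨?_, ?_⟩
    · intro h
      have := Nat.le_of_dvd (by omega) (hζ.dvd_of_pow_eq_one _ h)
      omega
    · rw [← pow_mul, mul_comm, pow_mul, hζ.pow_eq_one, one_pow]
  · intro i hi j hj h
    rw [Finset.mem_range] at hi hj
    have := hζ.pow_inj (by omega : i + 1 < n' + 1) (by omega : j + 1 < n' + 1) h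
    omega
  · intro ξ hξ
    rw [Finset.mem_erase, mem_nthRootsFinset hn0] at hξ
    obtain ⟨i, hi, hi2⟩ := hζ.eq_pow_of_pow_eq_one hξ.2
    have hi0 : i ≠ 0 := by
      rintro rfl
      rw [pow_zero] at hi2
      exact hξ.1 hi2.symm
    refine ⟨i - 1, Finset.mem_range.mpr (by omega), ?_⟩
    rw [show i - 1 + 1 = i by omega, hi2]
  · intro i hi
    rw [Finset.mem_range] at hi
    rw [if_neg]
    intro h
    have := Nat.le_of_dvd (by omega) (hζ.dvd_of_pow_eq_one _ h)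
    omega

end prods

section form

variable {K : Type*} [Field K]

/-- the alternating form -/
noncomputable def Bf (p : ℕ) (ρ u w : K) : K := (u * w ^ p - u ^ p * w) / ρ

/-- the multiplicative extension of the Legendre symbol -/
def Lg (p : ℕ) (x : K) : K := x ^ (p / 2)

lemma Lg_mul (p : ℕ) (x y : K) : Lg p (x * y) = Lg p x * Lg p y := mul_pow _ _ _
lemma Lg_one (p : ℕ) : Lg p (1 : K) = 1 := one_pow _
lemma Lg_pow (p : ℕ) (x : K) (n : ℕ) : Lg p (x ^ n) = Lg p x ^ n := by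
  unfold Lg
  rw [← pow_mul, ← pow_mul, mul_comm]
lemma Lg_div (p : ℕ) (x y : K) : Lg p (x / y) = Lg p x / Lg p y := div_pow _ _ _
lemma Lg_inv (p : ℕ) (x : K) : Lg p (x⁻¹) = (Lg p x)⁻¹ := inv_pow _ _
lemma Lg_prod (p : ℕ) {ι : Type*} (s : Finset ι) (f : ι → K) :
    Lg p (∏ i ∈ s, f i) = ∏ i ∈ s, Lg p (f i) := (Finset.prod_pow s (p / 2) f).symm

lemma Lg_neg {p : ℕ} (hp : p % 4 = 1) (x : K) : Lg p (-x) = Lg p x := by
  unfold Lg
  exact Even.neg_pow (Nat.even_iff.mpr (by omega)) x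

lemma Lg_sq_fix {p : ℕ} (hp : p % 2 = 1) {x : K} (hx : x ≠ 0) (h : x ^ p = x) :
    Lg p x ^ 2 = 1 := by
  unfold Lg
  have h1 : p = p / 2 * 2 + 1 := by omega
  rw [h1, pow_succ] at h
  rw [← pow_mul]
  exact mul_right_cancel₀ hx (by rw [h, one_mul])

lemma Lg_sq_anti {p : ℕ} (hp : p % 2 = 1) {x : K} (hx : x ≠ 0) (h : x ^ p = -x) :
    Lg p x ^ 2 = -1 := by
  unfold Lg
  have h1 : p = p / 2 * 2 + 1 := by omega
  rw [h1, pow_succ] at h
  rw [← pow_mul]
  exact mul_right_cancel₀ hx (by rw [h, neg_one_mul])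

lemma Lg_ne {p : ℕ} {x : K} (hx : x ≠ 0) : Lg p x ≠ 0 := pow_ne_zero _ hx

open Classical in
/-- the local factor -/
noncomputable def tt (p : ℕ) (ρ ε u w : K) : K :=
  if Bf p ρ u w = 0 then -ε * Lg p (w / u) else Lg p (Bf p ρ u w)

/-- the product of the local factors over a coset of the `n`-th roots of unity -/
noncomputable def TT (p n : ℕ) (ρ ε y w : K) : K :=
  ∏ ξ ∈ nthRootsFinset n (1 : K), tt p ρ ε (ξ * y) w

/-- invariance under elements of norm one -/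
lemma Bf_norm {p : ℕ} (ρ u w : K) {g : K} (hg : g ^ p * g = 1) :
    Bf p ρ (g * u) (g * w) = Bf p ρ u w := by
  unfold Bf
  congr 1
  rw [mul_pow, mul_pow]
  linear_combination (u * w ^ p - u ^ p * w) * hg

lemma tt_norm {p : ℕ} (ρ ε u w : K) {g : K} (hg : g ^ p * g = 1) :
    tt p ρ ε (g * u) (g * w) = tt p ρ ε u w := by
  have h0 : g ≠ 0 := by
    rintro rfl
    rw [mul_zero] at hg
    exact zero_ne_one hg
  unfold tt
  rw [Bf_norm ρ u w hg, mul_div_mul_left _ _ h0]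

lemma TT_norm {p n : ℕ} (ρ ε y w : K) {g : K} (hg : g ^ p * g = 1) :
    TT p n ρ ε (g * y) (g * w) = TT p n ρ ε y w := by
  unfold TT
  refine Finset.prod_congr rfl fun ξ _ => ?_
  rw [← tt_norm ρ ε (ξ * y) w hg]
  congr 1
  ring

lemma TT_root {p n : ℕ} (hn : 0 < n) (ρ ε y w : K) {η : K} (hη : η ^ n = 1) :
    TT p n ρ ε (η * y) w = TT p n ρ ε y w := by
  have h0 : η ≠ 0 := by
    rintro rfl
    rw [zero_pow hn.ne'] at hη
    exact zero_ne_one hη
  unfold TT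
  refine Finset.prod_nbij' (fun ξ => ξ * η) (fun ξ => ξ * η⁻¹) ?_ ?_ ?_ ?_ ?_
  · intro ξ hξ
    rw [mem_nthRootsFinset hn] at hξ ⊢
    rw [mul_pow, hξ, hη, one_mul]
  · intro ξ hξ
    rw [mem_nthRootsFinset hn] at hξ ⊢
    rw [mul_pow, hξ, inv_pow, hη, inv_one, one_mul]
  · intro ξ _
    exact mul_inv_cancel_right₀ h0 ξ
  · intro ξ _
    exact inv_mul_cancel_right₀ h0 ξ
  · intro ξ _
    congr 1
    ring

lemma tt_smul {p : ℕ} (ρ ε u w : K) {c : K} (hc : c ^ p = c) (hc0 : c ≠ 0) :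
    tt p ρ ε u (c * w) = Lg p c * tt p ρ ε u w := by
  have hB : Bf p ρ u (c * w) = c * Bf p ρ u w := by
    unfold Bf
    rw [mul_pow, hc]
    ring
  unfold tt
  rw [hB]
  by_cases h : Bf p ρ u w = 0
  · rw [if_pos h, if_pos (by rw [h, mul_zero]), mul_div_assoc, Lg_mul]
    ring
  · rw [if_neg h, if_neg (mul_ne_zero hc0 h), Lg_mul]

lemma TT_smul {p n : ℕ} {ζ : K} (hζ : IsPrimitiveRoot ζ n) (ρ ε y w : K) {c : K}
    (hc : c ^ p = c) (hc0 : c ≠ 0) :
    TT p n ρ ε y (c * w) = Lg p c ^ n * TT p n ρ ε y w := by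
  unfold TT
  rw [Finset.prod_congr rfl fun ξ _ => tt_smul ρ ε (ξ * y) w hc hc0, Finset.prod_mul_distrib,
    Finset.prod_const, hζ.card_nthRootsFinset]

lemma pow_inv_of_root {p n : ℕ} (hn : n ∣ p + 1) {ξ : K} (hξ : ξ ^ n = 1) : ξ ^ p = ξ⁻¹ := by
  obtain ⟨d, hd⟩ := hn
  refine eq_inv_of_mul_eq_one_left ?_
  rw [← pow_succ, hd, pow_mul, hξ, one_pow]

/-- value of the product when no factor vanishes -/
lemma TT_ne {p n : ℕ} (hn : n % 2 = 1) (hnp : n ∣ p + 1) {ζ : K} (hζ : IsPrimitiveRoot ζ n)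
    {ρ : K} (hρ : ρ ≠ 0) (ε y w : K) (h : (y * w ^ p) ^ n ≠ (y ^ p * w) ^ n) :
    TT p n ρ ε y w = Lg p (((y * w ^ p) ^ n - (y ^ p * w) ^ n) / ρ ^ n) := by
  have hn0 : 0 < n := by omega
  have h1 : ∏ ξ ∈ nthRootsFinset n (1 : K), Bf p ρ (ξ * y) w =
      ((y * w ^ p) ^ n - (y ^ p * w) ^ n) / ρ ^ n := by
    rw [← prod_coset hn hζ (y * w ^ p) (y ^ p * w)]
    have h2 : ∀ ξ ∈ nthRootsFinset n (1 : K), Bf p ρ (ξ * y) w =
        (ξ * (y * w ^ p) - ξ⁻¹ * (y ^ p * w)) / ρ := by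
      intro ξ hξ
      rw [mem_nthRootsFinset hn0] at hξ
      unfold Bf
      rw [mul_pow, pow_inv_of_root hnp hξ]
      congr 1
      ring
    rw [Finset.prod_congr rfl h2, Finset.prod_div_distrib, Finset.prod_const,
      hζ.card_nthRootsFinset]
  have h3 : ∏ ξ ∈ nthRootsFinset n (1 : K), Bf p ρ (ξ * y) w ≠ 0 := by
    rw [h1]
    exact div_ne_zero (sub_ne_zero.mpr h) (pow_ne_zero _ hρ)
  rw [← h1, Lg_prod]
  unfold TT
  refine Finset.prod_congr rfl fun ξ hξ => ?_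
  unfold tt
  rw [if_neg (Finset.prod_ne_zero_iff.mp h3 ξ hξ)]

/-- value of the product on the diagonal -/
lemma TT_self {p n : ℕ} (hn : n % 2 = 1) (hnp : n ∣ p + 1) {ζ : K} (hζ : IsPrimitiveRoot ζ n)
    {ρ : K} (hρ : ρ ≠ 0) (ε : K) {y : K} (hy : y ≠ 0) :
    TT p n ρ ε y y = -ε * (Lg p ((y ^ p * y) / ρ) ^ (n - 1) * Lg p (n : K)) := by
  classical
  have hn0 : 0 < n := by omega
  have h1m : (1 : K) ∈ nthRootsFinset n (1 : K) := one_mem_nthRootsFinset hn0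
  unfold TT
  rw [← Finset.mul_prod_erase (nthRootsFinset n (1 : K)) _ h1m]
  have h1 : tt p ρ ε (1 * y) y = -ε := by
    unfold tt
    rw [if_pos, one_mul, div_self hy, Lg_one, mul_one]
    unfold Bf
    rw [one_mul]
    have : y * y ^ p - y ^ p * y = 0 := by ring
    rw [this, zero_div]
  rw [h1]
  congr 1
  have h2 : ∀ ξ ∈ (nthRootsFinset n (1 : K)).erase 1, tt p ρ ε (ξ * y) y =
      Lg p ((y ^ p * y) / ρ) * Lg p (ξ - ξ⁻¹) := by
    intro ξ hξ
    have hξ1 := Finset.ne_of_mem_erase hξ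
    have hξ2 := Finset.mem_of_mem_erase hξ
    rw [mem_nthRootsFinset hn0] at hξ2
    have hξ0 : ξ ≠ 0 := by
      rintro rfl
      rw [zero_pow hn0.ne'] at hξ2
      exact zero_ne_one hξ2
    have hB : Bf p ρ (ξ * y) y = (y ^ p * y) / ρ * (ξ - ξ⁻¹) := by
      unfold Bf
      rw [mul_pow, pow_inv_of_root hnp hξ2]
      ring
    have hne : ξ - ξ⁻¹ ≠ 0 := by
      intro h
      have h3 : ξ ^ 2 = 1 := by
        have h4 : ξ * (ξ - ξ⁻¹) = 0 := by rw [h, mul_zero]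
        rw [mul_sub, mul_inv_cancel₀ hξ0, sub_eq_zero] at h4
        rw [sq, h4]
      have h4 : n = 2 * (n / 2) + 1 := by omega
      rw [h4, pow_succ, pow_mul, h3, one_pow, one_mul] at hξ2
      exact hξ1 hξ2
    unfold tt
    rw [hB, if_neg, Lg_mul]
    exact mul_ne_zero (div_ne_zero (mul_ne_zero (pow_ne_zero _ hy) hy) hρ) hne
  rw [Finset.prod_congr rfl h2, Finset.prod_mul_distrib, Finset.prod_const,
    Finset.card_erase_of_mem h1m, hζ.card_nthRootsFinset, ← Lg_prod, prod_triv hn hζ]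

end form

end Pool.QRC
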